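import Mathlib

/-!
# Basic definitions for the balance-free colouring
-/

set_option autoImplicit false

namespace Pool.Agent.N466.Bal

open MeasureTheory Set
open scoped ContDiff

/-- The space of four densities. -/
abbrev V := Fin 4 → ℝ

/-- The second difference of a curve. -/
def Phi (F : ℝ → V) (p h l : ℝ) : V := F (p + h + l) - F (p + h) - F (p + l) + F p

theorem Phi_comm (F : ℝ → V) (p h l : ℝ) : Phi F p h l = Phi F p l h := by
  unfold Phi
  have : p + h + l = p + l + h := by ring
  rw [this]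
  abel

/-- A mean value inequality. -/
theorem mvt_ge {f f' : ℝ → ℝ} (hf : ∀ x, HasDerivAt f (f' x) x) {a b m : ℝ} (hab : a ≤ b)
    (hm : ∀ x ∈ Icc a b, m ≤ f' x) : m * (b - a) ≤ f b - f a := by
  apply (convex_Icc a b).mul_sub_le_image_sub_of_le_deriv
    (fun x _ => (hf x).continuousAt.continuousWithinAt)
    (fun x _ => (hf x).differentiableAt.differentiableWithinAt) _ a (left_mem_Icc.2 hab) b
    (right_mem_Icc.2 hab) hab
  intro x hx
  rw [(hf x).deriv]
  exact hm x (interior_subset hx)

theorem mvt_abs {f f' : ℝ → ℝ} (hf : ∀ x, HasDerivAt f (f' x) x) {a b m : ℝ} (hab : a ≤ b)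
    (hm : ∀ x ∈ Icc a b, |f' x| ≤ m) : |f b - f a| ≤ m * (b - a) := by
  rw [abs_le]
  constructor
  · have := mvt_ge hf hab (m := -m) (fun x hx => (abs_le.1 (hm x hx)).1)
    linarith
  · have := mvt_ge (f := fun x => - f x) (f' := fun x => - f' x) (fun x => (hf x).neg) hab
      (m := -m) (fun x hx => by have := (abs_le.1 (hm x hx)).2; linarith)
    linarith

/-- A smooth increasing density. -/
noncomputable def sg (s : ℝ) : ℝ := 1 / 4 + Real.arctan s / (2 * Real.pi)

theorem sg_pos (s : ℝ) : 0 < sg s := by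
  unfold sg
  have h1 := Real.neg_pi_div_two_lt_arctan s
  have hpi := Real.pi_pos
  have h2 : -(1 / 4 : ℝ) < Real.arctan s / (2 * Real.pi) := by
    rw [lt_div_iff₀ (by positivity)]
    linarith
  linarith

theorem sg_lt (s : ℝ) : sg s < 1 / 2 := by
  unfold sg
  have h1 := Real.arctan_lt_pi_div_two s
  have hpi := Real.pi_pos
  have h2 : Real.arctan s / (2 * Real.pi) < 1 / 4 := by
    rw [div_lt_iff₀ (by positivity)]
    linarith
  linarith

theorem sg_add (s : ℝ) : sg s + sg (-s) = 1 / 2 := by
  unfold sg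
  rw [Real.arctan_neg]
  ring

theorem sg_zero : sg 0 = 1 / 4 := by
  unfold sg
  simp

theorem sg_mono : Monotone sg := by
  intro a b hab
  unfold sg
  have hpi := Real.pi_pos
  have := Real.arctan_strictMono.monotone hab
  gcongr

theorem hasDerivAt_sg (s : ℝ) : HasDerivAt sg (1 / (2 * Real.pi * (1 + s ^ 2))) s := by
  have h := ((Real.hasDerivAt_arctan s).div_const (2 * Real.pi)).const_add (1 / 4)
  have hpi := Real.pi_pos
  have e : 1 / (2 * Real.pi * (1 + s ^ 2)) = 1 / (1 + s ^ 2) / (2 * Real.pi) := by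
    rw [div_div, mul_comm (1 + s ^ 2)]
  rw [e]
  exact h

theorem contDiff_sg : ContDiff ℝ ∞ sg := by
  unfold sg
  exact contDiff_const.add (Real.contDiff_arctan.div_const _)

theorem continuous_sg : Continuous sg := contDiff_sg.continuous

theorem sg_lower {M a b : ℝ} (ha : -M ≤ a) (hab : a ≤ b) (hb : b ≤ M) :
    1 / (2 * Real.pi * (1 + M ^ 2)) * (b - a) ≤ sg b - sg a := by
  apply mvt_ge hasDerivAt_sg hab
  intro x hx
  have hpi := Real.pi_pos
  apply one_div_le_one_div_of_le (by positivity)
  have : x ^ 2 ≤ M ^ 2 := by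
    apply sq_le_sq'
    · linarith [hx.1]
    · linarith [hx.2]
  gcongr

theorem sg_small {ε : ℝ} (hε : 0 < ε) : ∃ N : ℝ, 0 < N ∧ sg (-N) ≤ ε := by
  have h : Filter.Tendsto sg Filter.atBot (nhds 0) := by
    have h1 : Filter.Tendsto Real.arctan Filter.atBot (nhds (-(Real.pi / 2))) :=
      Real.tendsto_arctan_atBot.mono_right nhdsWithin_le_nhds
    have h2 := (h1.div_const (2 * Real.pi)).const_add (1 / 4 : ℝ)
    have hpi := Real.pi_pos
    have e : (0 : ℝ) = 1 / 4 + -(Real.pi / 2) / (2 * Real.pi) := by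
      field_simp
      norm_num
    rw [e]
    exact h2
  have h1 := h.eventually (gt_mem_nhds hε)
  rw [Filter.eventually_atBot] at h1
  obtain ⟨a, ha⟩ := h1
  refine ⟨|a| + 1, by positivity, (ha _ ?_).le⟩
  have := neg_abs_le a
  linarith

/-- An antiderivative of `sg`. -/
noncomputable def Sg (t : ℝ) : ℝ := ∫ x in (0 : ℝ)..t, sg x

theorem hasDerivAt_Sg (t : ℝ) : HasDerivAt Sg (sg t) t :=
  intervalIntegral.integral_hasDerivAt_right (continuous_sg.intervalIntegrable _ _)
    (continuous_sg.stronglyMeasurableAtFilter _ _) continuous_sg.continuousAt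

theorem far {n c : ℝ} (hn : 0 < n) (hc : 0 < c) : ∃ N₀ : ℝ, 0 < N₀ ∧ ∀ (f r : ℝ → ℝ),
    (∀ x, HasDerivAt f (r x) x) → (∀ s, n ≤ |s| → r s = sg s) →
    (∀ s, |s| ≤ n → c ≤ r s ∧ r s ≤ 1) → ∀ N : ℝ, ∃ c' : ℝ, 0 < c' ∧
      ∀ p h l, 0 ≤ h → 0 ≤ l → -N ≤ p → p + h + l ≤ N → p < -N₀ →
        c' * h * l ≤ f (p + h + l) - f (p + h) - f (p + l) + f p := by
  obtain ⟨N₁, hN₁, hs⟩ := sg_small (show 0 < min (c / 2) (1 / 16) by positivity)
  obtain ⟨N₂, hN₂⟩ : ∃ N₂, N₂ = max N₁ n := ⟨_, rfl⟩
  have hN2n : n ≤ N₂ := by rw [hN₂]; exact le_max_right _ _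
  have hN20 : 0 < N₂ := hn.trans_le hN2n
  have hs2 : sg (-N₂) ≤ min (c / 2) (1 / 16) :=
    (sg_mono (by rw [hN₂]; exact neg_le_neg (le_max_left _ _))).trans hs
  have hs3 : sg (-N₂) ≤ c / 2 := hs2.trans (min_le_left _ _)
  have hs4 : sg (-N₂) ≤ 1 / 16 := hs2.trans (min_le_right _ _)
  refine ⟨2 * N₂ + 30 * n + 10, by positivity, ?_⟩
  intro f r hf hr1 hr2 N
  obtain ⟨M, hM⟩ : ∃ M, M = |N| + 1 := ⟨_, rfl⟩
  have hM1 : 1 ≤ M := by rw [hM]; linarith [abs_nonneg N]
  have hNM : N ≤ M := by rw [hM]; linarith [le_abs_self N]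
  have hpi := Real.pi_pos
  obtain ⟨c', hc'⟩ : ∃ c', c' = min (1 / (2 * Real.pi * (1 + M ^ 2))) (min (c / (4 * M)) (1 / (4 * M ^ 2))) :=
    ⟨_, rfl⟩
  have hc'0 : 0 < c' := by rw [hc']; positivity
  have hc'1 : c' ≤ 1 / (2 * Real.pi * (1 + M ^ 2)) := by rw [hc']; exact min_le_left _ _
  have hc'2 : c' ≤ c / (4 * M) := by
    rw [hc']; exact (min_le_right _ _).trans (min_le_left _ _)
  have hc'3 : c' ≤ 1 / (4 * M ^ 2) := by
    rw [hc']; exact (min_le_right _ _).trans (min_le_right _ _)
  refine ⟨c', hc'0, ?_⟩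
  -- reduction to `h ≤ l`
  suffices H : ∀ p h l, 0 ≤ h → h ≤ l → -M ≤ p → p + h + l ≤ M → p < -(2 * N₂ + 30 * n + 10) →
      c' * h * l ≤ f (p + h + l) - f (p + h) - f (p + l) + f p by
    intro p h l hh hl hp1 hp2 hp3
    rcases le_total h l with hhl | hhl
    · exact H p h l hh hhl (by linarith) (by linarith) hp3
    · have := H p l h hl hhl (by linarith) (by linarith) hp3
      have e : p + l + h = p + h + l := by ring
      rw [e] at this
      have e2 : c' * l * h = c' * h * l := by ring
      linarith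
  intro p h l hh hhl hp1 hp2 hp3
  have hl : 0 ≤ l := hh.trans hhl
  by_cases hA : p + h ≤ -n
  · -- first case
    have hder : ∀ x, HasDerivAt (fun x => f (p + l + x) - f (p + x)) (r (p + l + x) - r (p + x)) x := by
      intro x
      exact ((hf (p + l + x)).comp_const_add (p + l) x).sub ((hf (p + x)).comp_const_add p x)
    have := mvt_ge hder hh (m := c' * l) ?_
    · simp only [add_zero, sub_zero] at this
      have e : p + l + h = p + h + l := by ring
      rw [e] at this
      nlinarith
    · intro x hx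
      have h1 : r (p + x) = sg (p + x) := by
        apply hr1
        rw [abs_of_nonpos (by linarith [hx.2])]
        linarith [hx.2]
      rw [h1]
      by_cases h2 : n ≤ |p + l + x|
      · rw [hr1 _ h2]
        have h3 := sg_lower (M := M) (a := p + x) (b := p + l + x) (by linarith [hx.1]) (by linarith)
          (by linarith [hx.2])
        have h4 : p + l + x - (p + x) = l := by ring
        rw [h4] at h3
        nlinarith
      · push Not at h2
        have h3 := (hr2 _ h2.le).1
        have h4 := (abs_lt.1 h2).2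
        have h5 : sg (p + x) ≤ sg (-N₂) := by
          apply sg_mono
          linarith [hx.1, hx.2]
        have h6 : c' * l ≤ c / 2 := by
          calc c' * l ≤ c / (4 * M) * (2 * M) := by
                apply mul_le_mul hc'2 (by linarith) hl (by positivity)
            _ = c / 2 := by field_simp; norm_num
        linarith
  · -- second case
    push Not at hA
    obtain ⟨G, hG⟩ : ∃ G : ℝ → ℝ, G = fun t => f t - Sg t := ⟨_, rfl⟩
    have hG' : ∀ x, HasDerivAt G (r x - sg x) x := by
      intro x; rw [hG]; exact (hf x).sub (hasDerivAt_Sg x)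
    have hG1 : ∀ a b, a ≤ b → (n ≤ a ∨ b ≤ -n) → G b = G a := by
      intro a b hab h0
      have := mvt_abs hG' hab (m := 0) ?_
      · have h1 : |G b - G a| ≤ 0 := by linarith
        have h2 := abs_nonpos_iff.1 h1
        linarith
      · intro x hx
        have : n ≤ |x| := by
          rcases h0 with h0 | h0
          · exact (h0.trans hx.1).trans (le_abs_self x)
          · have := neg_abs_le x
            linarith [hx.2]
        rw [hr1 x this]
        simp
    have hG2 : ∀ t, ∃ t', -n ≤ t' ∧ t' ≤ n ∧ G t = G t' := by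
      intro t
      by_cases h1 : t ≤ -n
      · exact ⟨-n, le_rfl, by linarith, (hG1 t (-n) h1 (Or.inr le_rfl)).symm⟩
      · by_cases h2 : n ≤ t
        · exact ⟨n, by linarith, le_rfl, hG1 n t h2 (Or.inl le_rfl)⟩
        · exact ⟨t, by linarith, by linarith, rfl⟩
    have hG3 : ∀ s t, |G t - G s| ≤ 2 * n := by
      have key : ∀ s t, -n ≤ s → s ≤ t → t ≤ n → |G t - G s| ≤ 2 * n := by
        intro s t h1 h2 h3
        have := mvt_abs hG' h2 (m := 1) ?_
        · linarith
        · intro x hx
          have h4 : |x| ≤ n := abs_le.2 ⟨by linarith [hx.1], by linarith [hx.2]⟩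
          have h5 := hr2 x h4
          have h6 := sg_pos x
          have h7 := sg_lt x
          rw [abs_le]
          constructor <;> linarith
      intro s t
      obtain ⟨s', hs1, hs2, hs3⟩ := hG2 s
      obtain ⟨t', ht1, ht2, ht3⟩ := hG2 t
      rw [hs3, ht3]
      rcases le_total s' t' with h | h
      · exact key s' t' hs1 h ht2
      · rw [abs_sub_comm]
        exact key t' s' ht1 h hs2
    obtain ⟨φ, hφ⟩ : ∃ φ : ℝ → ℝ, φ = fun x => Sg (p + l + x) - Sg (p + x) := ⟨_, rfl⟩
    have hφ' : ∀ x, HasDerivAt φ (sg (p + l + x) - sg (p + x)) x := by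
      intro x
      rw [hφ]
      exact ((hasDerivAt_Sg (p + l + x)).comp_const_add (p + l) x).sub
        ((hasDerivAt_Sg (p + x)).comp_const_add p x)
    have hφm : ∀ a b, a ≤ b → φ a ≤ φ b := by
      intro a b hab
      have := mvt_ge hφ' hab (m := 0) (fun x _ => by
        have := sg_mono (show p + x ≤ p + l + x by linarith)
        linarith)
      linarith
    have h1 : φ n - φ 0 ≥ 0 := by linarith [hφm 0 n hn.le]
    have h2 : φ h - φ (-N₂ - p) ≥ 0 := by linarith [hφm (-N₂ - p) h (by linarith)]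
    have h3 : 3 / 16 * (-N₂ - p - n) ≤ φ (-N₂ - p) - φ n := by
      apply mvt_ge hφ' (by linarith)
      intro x hx
      have h4 : sg 0 ≤ sg (p + l + x) := sg_mono (by linarith [hx.1])
      have h5 : sg (p + x) ≤ sg (-N₂) := sg_mono (by linarith [hx.2])
      rw [sg_zero] at h4
      linarith
    have h4 : f (p + h + l) - f (p + h) - f (p + l) + f p =
        (φ h - φ 0) + (G (p + h + l) - G (p + h)) - (G (p + l) - G p) := by
      rw [hφ, hG]
      have e : p + l + h = p + h + l := by ring
      simp only [add_zero]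
      rw [e]
      ring
    have h5 := (abs_le.1 (hG3 (p + h) (p + h + l))).1
    have h6 := (abs_le.1 (hG3 p (p + l))).2
    have h7 : 1 ≤ f (p + h + l) - f (p + h) - f (p + l) + f p := by
      rw [h4]
      linarith
    have h8 : c' * h * l ≤ 1 := by
      calc c' * h * l ≤ 1 / (4 * M ^ 2) * (2 * M) * (2 * M) := by
            apply mul_le_mul _ (by linarith) hl (by positivity)
            apply mul_le_mul hc'3 (by linarith) hh (by positivity)
        _ = 1 := by field_simp; norm_num
    linarith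

end Pool.Agent.N466.Bal
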