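import Pool.Agent.N466.Bal.Quot

/-!
# Curves with positive smooth densities, and the base curve
-/

set_option autoImplicit false

namespace Pool.Agent.N466.Bal

open MeasureTheory Set
open scoped ContDiff

/-- The density of the base curve. -/
noncomputable def rho0 (s : ℝ) : V := ![sg s, 1 / 4, 1 / 4, sg (-s)]

/-- The curves used in the construction. -/
structure Curve (F ρ : ℝ → V) : Prop where
  der : ∀ i s, HasDerivAt (fun t => F t i) (ρ s i) s
  smooth : ∀ i, ContDiff ℝ ∞ (fun s => ρ s i)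
  pos : ∀ s i, 0 < ρ s i
  sum : ∀ s, ∑ i, ρ s i = 1
  base : ∃ n : ℝ, 0 < n ∧ ∀ s, n ≤ |s| → ρ s = rho0 s
  nd : ∀ N : ℝ, ∃ c : ℝ, 0 < c ∧ ∀ p h l, 0 ≤ h → 0 ≤ l → -N ≤ p → p + h + l ≤ N →
    c * h * l ≤ ‖Phi F p h l‖

/-- The base curve. -/
noncomputable def F0 (t : ℝ) : V := fun i => ∫ x in (0 : ℝ)..t, rho0 x i

theorem smooth_rho0 (i : Fin 4) : ContDiff ℝ ∞ (fun s => rho0 s i) := by
  unfold rho0
  fin_cases i
  · exact contDiff_sg
  · exact contDiff_const
  · exact contDiff_const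
  · exact contDiff_sg.comp contDiff_neg

theorem Curve.le_one {F ρ : ℝ → V} (hC : Curve F ρ) (s : ℝ) (i : Fin 4) : ρ s i ≤ 1 := by
  rw [← hC.sum s]
  exact Finset.single_le_sum (f := fun i => ρ s i) (fun j _ => (hC.pos s j).le) (Finset.mem_univ i)

theorem curve_base : Curve F0 rho0 where
  der := by
    intro i s
    have hc := (smooth_rho0 i).continuous
    exact intervalIntegral.integral_hasDerivAt_right (hc.intervalIntegrable _ _)
      (hc.stronglyMeasurableAtFilter _ _) hc.continuousAt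
  smooth := smooth_rho0
  pos := by
    intro s i
    unfold rho0
    fin_cases i
    · exact sg_pos s
    · norm_num
    · norm_num
    · exact sg_pos (-s)
  sum := by
    intro s
    rw [Fin.sum_univ_four]
    unfold rho0
    have := sg_add s
    simp only [Matrix.cons_val_zero, Matrix.cons_val_one, Matrix.cons_val]
    linarith
  base := ⟨1, one_pos, fun _ _ => rfl⟩
  nd := by
    intro N
    have hpi := Real.pi_pos
    refine ⟨1 / (2 * Real.pi * (1 + N ^ 2)), by positivity, ?_⟩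
    intro p h l hh hl hp hq
    have hder : ∀ x, HasDerivAt (fun t => F0 t 0) (sg x) x := by
      intro s
      have hc := (smooth_rho0 0).continuous
      exact intervalIntegral.integral_hasDerivAt_right (hc.intervalIntegrable _ _)
        (hc.stronglyMeasurableAtFilter _ _) hc.continuousAt
    have hφ : ∀ x, HasDerivAt (fun x => F0 (p + l + x) 0 - F0 (p + x) 0)
        (sg (p + l + x) - sg (p + x)) x := by
      intro x
      exact ((hder (p + l + x)).comp_const_add (p + l) x).sub ((hder (p + x)).comp_const_add p x)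
    have := mvt_ge hφ hh (m := 1 / (2 * Real.pi * (1 + N ^ 2)) * l) ?_
    · simp only [add_zero, sub_zero] at this
      have e : p + l + h = p + h + l := by ring
      rw [e] at this
      have h2 : Phi F0 p h l 0 ≤ ‖Phi F0 p h l‖ :=
        (le_abs_self _).trans (norm_le_pi_norm (Phi F0 p h l) 0)
      have h3 : Phi F0 p h l 0 = F0 (p + h + l) 0 - F0 (p + h) 0 - F0 (p + l) 0 + F0 p 0 := rfl
      rw [h3] at h2
      refine le_trans ?_ h2
      nlinarith
    · intro x hx
      have h3 := sg_lower (M := N) (a := p + x) (b := p + l + x) (by linarith [hx.1]) (by linarith)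
        (by linarith [hx.2])
      have h4 : p + l + x - (p + x) = l := by ring
      rw [h4] at h3
      exact h3

/-- The two-sided far estimate. -/
theorem far_curve {n c : ℝ} (hn : 0 < n) (hc : 0 < c) : ∃ N₀ : ℝ, 0 < N₀ ∧ ∀ (F ρ : ℝ → V),
    (∀ i s, HasDerivAt (fun t => F t i) (ρ s i) s) → (∀ s, n ≤ |s| → ρ s = rho0 s) →
    (∀ s, |s| ≤ n → ∀ i, c ≤ ρ s i ∧ ρ s i ≤ 1) → ∀ N : ℝ, ∃ c' : ℝ, 0 < c' ∧
      ∀ p h l, 0 ≤ h → 0 ≤ l → -N ≤ p → p + h + l ≤ N → (p < -N₀ ∨ N₀ < p + h + l) →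
        c' * h * l ≤ ‖Phi F p h l‖ := by
  obtain ⟨N₀, hN₀, H⟩ := far hn hc
  refine ⟨N₀, hN₀, ?_⟩
  intro F ρ hF h1 h2 N
  obtain ⟨c1, hc1, H1⟩ := H (fun t => F t 0) (fun s => ρ s 0) (hF 0)
    (fun s hs => by rw [h1 s hs]; rfl) (fun s hs => h2 s hs 0) N
  obtain ⟨c2, hc2, H2⟩ := H (fun t => - F (-t) 3) (fun s => ρ (-s) 3)
    (fun x => by
      have := ((hF 3 (-x)).comp x (hasDerivAt_neg x)).neg
      simp only [mul_neg, mul_one, neg_neg] at this
      exact this)
    (fun s hs => by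
      rw [h1 (-s) (by rwa [abs_neg])]
      show sg (- -s) = sg s
      rw [neg_neg]) (fun s hs => h2 (-s) (by rwa [abs_neg]) 3) N
  refine ⟨min c1 c2, lt_min hc1 hc2, ?_⟩
  intro p h l hh hl hp hq hor
  rcases hor with hor | hor
  · have h3 := H1 p h l hh hl hp hq hor
    have h4 : Phi F p h l 0 ≤ ‖Phi F p h l‖ :=
      (le_abs_self _).trans (norm_le_pi_norm (Phi F p h l) 0)
    have h5 : Phi F p h l 0 = F (p + h + l) 0 - F (p + h) 0 - F (p + l) 0 + F p 0 := rfl
    have h6 : min c1 c2 * h * l ≤ c1 * h * l := by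
      apply mul_le_mul_of_nonneg_right _ hl
      exact mul_le_mul_of_nonneg_right (min_le_left _ _) hh
    linarith
  · have h3 := H2 (-(p + h + l)) h l hh hl (by linarith) (by linarith) (by linarith)
    have h4 : - Phi F p h l 3 ≤ ‖Phi F p h l‖ :=
      (neg_le_abs _).trans (norm_le_pi_norm (Phi F p h l) 3)
    have h5 : Phi F p h l 3 = F (p + h + l) 3 - F (p + h) 3 - F (p + l) 3 + F p 3 := rfl
    have h6 : min c1 c2 * h * l ≤ c2 * h * l := by
      apply mul_le_mul_of_nonneg_right _ hl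
      exact mul_le_mul_of_nonneg_right (min_le_right _ _) hh
    have e1 : -(-(p + h + l) + h + l) = p := by ring
    have e2 : -(-(p + h + l) + h) = p + l := by ring
    have e3 : -(-(p + h + l) + l) = p + h := by ring
    have e4 : -(-(p + h + l)) = p + h + l := by ring
    simp only [e1, e2, e3, e4] at h3
    linarith

/-- The derivative of the density. -/
noncomputable def Dr (ρ : ℝ → V) (i : Fin 4) : ℝ → ℝ := deriv (fun s => ρ s i)

theorem Curve.hasDerivAt_rho {F ρ : ℝ → V} (hC : Curve F ρ) (i : Fin 4) (s : ℝ) :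
    HasDerivAt (fun s => ρ s i) (Dr ρ i s) s :=
  ((hC.smooth i).differentiable (by simp) s).hasDerivAt

theorem Curve.contDiff_Dr {F ρ : ℝ → V} (hC : Curve F ρ) (i : Fin 4) : ContDiff ℝ ∞ (Dr ρ i) :=
  ((contDiff_infty_iff_deriv (𝕜 := ℝ)).1 (hC.smooth i)).2

theorem Curve.continuous_Dr {F ρ : ℝ → V} (hC : Curve F ρ) (i : Fin 4) : Continuous (Dr ρ i) :=
  (hC.contDiff_Dr i).continuous

theorem Curve.sum_Dr {F ρ : ℝ → V} (hC : Curve F ρ) (s : ℝ) : ∑ i, Dr ρ i s = 0 := by
  have h1 : HasDerivAt (fun s => ∑ i, ρ s i) (∑ i, Dr ρ i s) s :=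
    HasDerivAt.fun_sum fun i _ => hC.hasDerivAt_rho i s
  have h2 : (fun s => ∑ i, ρ s i) = fun _ => (1 : ℝ) := by
    ext s; exact hC.sum s
  rw [h2] at h1
  exact h1.unique (hasDerivAt_const s 1)

/-- A smooth function is Lipschitz on a compact interval. -/
theorem exists_lip {D : ℝ → ℝ} (hD : ContDiff ℝ ∞ D) (N : ℝ) : ∃ L : ℝ, 0 ≤ L ∧
    ∀ x ∈ Icc (-N) N, ∀ y ∈ Icc (-N) N, |D x - D y| ≤ L * |x - y| := by
  have hc : Continuous (deriv D) := ((contDiff_infty_iff_deriv (𝕜 := ℝ)).1 hD).2.continuous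
  obtain ⟨L, hL⟩ := (isCompact_Icc (a := -N) (b := N)).exists_bound_of_continuousOn hc.continuousOn
  have hd : ∀ x, HasDerivAt D (deriv D x) x := fun x => (hD.differentiable (by simp) x).hasDerivAt
  have key : ∀ x ∈ Icc (-N) N, ∀ y ∈ Icc (-N) N, x ≤ y → |D x - D y| ≤ max L 0 * |x - y| := by
    intro x hx y hy hxy
    have := mvt_abs hd hxy (m := max L 0) (fun z hz =>
      (hL z ⟨hx.1.trans hz.1, hz.2.trans hy.2⟩).trans (le_max_left _ _))
    rw [abs_sub_comm, abs_sub_comm x y, abs_of_nonneg (by linarith : 0 ≤ y - x)]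
    exact this
  refine ⟨max L 0, le_max_right _ _, ?_⟩
  intro x hx y hy
  rcases le_total x y with h | h
  · exact key x hx y hy h
  · rw [abs_sub_comm, abs_sub_comm x y]
    exact key y hy x hx h

theorem Curve.exists_lip {F ρ : ℝ → V} (hC : Curve F ρ) (N : ℝ) : ∃ L : ℝ, 0 ≤ L ∧ ∀ i,
    ∀ x ∈ Icc (-N) N, ∀ y ∈ Icc (-N) N, |Dr ρ i x - Dr ρ i y| ≤ L * |x - y| := by
  have h := fun i => Bal.exists_lip (hC.contDiff_Dr i) N
  choose L hL0 hL using h
  refine ⟨∑ i, L i, Finset.sum_nonneg fun i _ => hL0 i, ?_⟩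
  intro i x hx y hy
  refine (hL i x hx y hy).trans ?_
  apply mul_le_mul_of_nonneg_right _ (abs_nonneg _)
  exact Finset.single_le_sum (f := L) (fun j _ => hL0 j) (Finset.mem_univ i)

theorem Curve.W_low {F ρ : ℝ → V} (hC : Curve F ρ) (N : ℝ) : ∃ c : ℝ, 0 < c ∧
    ∀ a ∈ Icc (-N) N, ∀ b ∈ Icc (-N) N, c ≤ ‖(fun i => W (Dr ρ i) a b : V)‖ := by
  obtain ⟨c, hc, H⟩ := hC.nd (N + 1)
  obtain ⟨L, hL0, hL⟩ := hC.exists_lip (N + 1)
  refine ⟨c, hc, ?_⟩
  have key : ∀ a ∈ Icc (-N) N, ∀ b ∈ Icc (-N) N, a ≤ b →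
      c ≤ ‖(fun i => W (Dr ρ i) a b : V)‖ := by
    intro a ha b hb hab
    obtain ⟨w, hw⟩ : ∃ w, w = ‖(fun i => W (Dr ρ i) a b : V)‖ := ⟨_, rfl⟩
    rw [← hw]
    have h1 : ∀ h : ℝ, 0 < h → h ≤ 1 / 2 → c ≤ w + 3 * L * h := by
      intro h hh0 hh1
      obtain ⟨l, hl⟩ : ∃ l, l = b - a + h := ⟨_, rfl⟩
      have hl0 : 0 < l := by rw [hl]; linarith
      have e1 : a + l = b + h := by rw [hl]; ring
      have h2 := H a h l hh0.le hl0.le (by linarith [ha.1]) (by rw [hl]; linarith [hb.2])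
      have h3 : ‖Phi F a h l‖ ≤ (w + 3 * L * h) * (h * l) := by
        rw [pi_norm_le_iff_of_nonneg (by
          have : 0 ≤ w := by rw [hw]; exact norm_nonneg _
          positivity)]
        intro i
        have h4 := second_diff (hC.continuous_Dr i) (hC.hasDerivAt_rho i) (hC.der i) (hL i) hL0
          (p := a) hh0.le hl0.le (by linarith [ha.1]) (by rw [hl]; linarith [hb.2])
        have h5 : Phi F a h l i = F (a + h + l) i - F (a + h) i - F (a + l) i + F a i := rfl
        rw [← h5, e1] at h4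
        have h6 := W_lip (hC.continuous_Dr i) (hL i) hL0 (a := a) (b := b + h) (a' := a) (b' := b)
          ⟨by linarith [ha.1], by linarith [ha.2]⟩ ⟨by linarith [hb.1], by linarith [hb.2]⟩
          ⟨by linarith [ha.1], by linarith [ha.2]⟩ ⟨by linarith [hb.1], by linarith [hb.2]⟩
        have e2 : b + h - b = h := by ring
        rw [e2, sub_self, abs_zero, zero_add, abs_of_pos hh0] at h6
        have h7 : |W (Dr ρ i) a b| ≤ w := by
          rw [hw]
          exact norm_le_pi_norm (fun i => W (Dr ρ i) a b : V) i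
        have h8 : |W (Dr ρ i) a (b + h)| ≤ w + L * h := by
          have : |W (Dr ρ i) a (b + h)| ≤ |W (Dr ρ i) a (b + h) - W (Dr ρ i) a b| +
              |W (Dr ρ i) a b| := by
            have := abs_add_le (W (Dr ρ i) a (b + h) - W (Dr ρ i) a b) (W (Dr ρ i) a b)
            simpa using this
          linarith
        have hhl : 0 < h * l := mul_pos hh0 hl0
        rw [Real.norm_eq_abs]
        calc |Phi F a h l i| ≤ |Phi F a h l i - h * l * W (Dr ρ i) a (b + h)| +
              |h * l * W (Dr ρ i) a (b + h)| := by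
              have := abs_add_le (Phi F a h l i - h * l * W (Dr ρ i) a (b + h))
                (h * l * W (Dr ρ i) a (b + h))
              simpa using this
          _ ≤ 2 * L * h * (h * l) + h * l * (w + L * h) := by
              apply add_le_add h4
              rw [abs_mul, abs_of_pos hhl]
              exact mul_le_mul_of_nonneg_left h8 hhl.le
          _ = _ := by ring
      have h4 : c * (h * l) ≤ (w + 3 * L * h) * (h * l) := by linarith
      exact le_of_mul_le_mul_right h4 (mul_pos hh0 hl0)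
    apply le_of_forall_pos_le_add
    intro ε hε
    obtain ⟨h, hh⟩ : ∃ h, h = min (1 / 2) (ε / (3 * L + 1)) := ⟨_, rfl⟩
    have hh0 : 0 < h := by rw [hh]; positivity
    have hh1 : h ≤ 1 / 2 := by rw [hh]; exact min_le_left _ _
    have hh2 : h ≤ ε / (3 * L + 1) := by rw [hh]; exact min_le_right _ _
    rw [le_div_iff₀ (by positivity)] at hh2
    have := h1 h hh0 hh1
    nlinarith
  intro a ha b hb
  rcases le_total a b with h | h
  · exact key a ha b hb h
  · have := key b hb a ha h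
    have e : (fun i => W (Dr ρ i) a b : V) = (fun i => W (Dr ρ i) b a : V) := by
      ext i; exact W_symm _ _ _
    rw [e]
    exact this

theorem Curve.sum_W {F ρ : ℝ → V} (hC : Curve F ρ) (a b : ℝ) : ∑ i, W (Dr ρ i) a b = 0 := by
  unfold W
  rw [← intervalIntegral.integral_finset_sum]
  · have : (fun x : ℝ => ∑ i, Dr ρ i (a + x * (b - a))) = fun _ => 0 := by
      ext x
      exact hC.sum_Dr _
    rw [this]
    simp
  · intro i _
    apply Continuous.intervalIntegrable
    have := hC.continuous_Dr i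
    fun_prop

theorem sum_perm (e : Equiv.Perm (Fin 4)) (x : Fin 4 → ℝ) :
    ∑ i, x i = x (e 0) + x (e 1) + x (e 2) + x (e 3) := by
  rw [← Equiv.sum_comp e x, Fin.sum_univ_four]

theorem Curve.low {F ρ : ℝ → V} (hC : Curve F ρ) (N : ℝ) : ∃ c : ℝ, 0 < c ∧
    ∀ e : Equiv.Perm (Fin 4), ∀ a ∈ Icc (-N) N, ∀ b ∈ Icc (-N) N, c ≤ |W (Dr ρ (e 0)) a b| ∨
      c ≤ |W (Dr ρ (e 1)) a b| ∨ c ≤ |W (Dr ρ (e 2)) a b| := by
  obtain ⟨c, hc, H⟩ := hC.W_low N
  refine ⟨c / 3, by positivity, ?_⟩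
  intro e a ha b hb
  by_contra hcon
  push Not at hcon
  obtain ⟨h0, h1, h2⟩ := hcon
  have h3 := hC.sum_W a b
  rw [sum_perm e] at h3
  have h4 : |W (Dr ρ (e 3)) a b| < c := by
    rw [abs_lt] at h0 h1 h2 ⊢
    constructor <;> linarith
  have h5 : ‖(fun i => W (Dr ρ i) a b : V)‖ < c := by
    rw [pi_norm_lt_iff hc]
    intro i
    obtain ⟨j, rfl⟩ := e.surjective i
    rw [Real.norm_eq_abs]
    fin_cases j
    · exact h0.trans (by linarith)
    · exact h1.trans (by linarith)
    · exact h2.trans (by linarith)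
    · exact h4
  exact absurd (H a ha b hb) (not_le.2 h5)

end Pool.Agent.N466.Bal
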