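import Mathlib

set_option autoImplicit false

namespace Pool.Agent.N466.Bal

open MeasureTheory Set
open scoped ContDiff Manifold

/-- A smooth cutoff function vanishing on a closed set of small measure. -/
theorem exists_cutoff {Z : Set ℝ} (hZ : IsClosed Z) {n η : ℝ} (hn : 0 < n) (hη : 0 < η)
    (hvol : volume Z ≤ ENNReal.ofReal η) :
    ∃ χ : ℝ → ℝ, ContDiff ℝ ∞ χ ∧ (∀ s, 0 ≤ χ s ∧ χ s ≤ 1) ∧ (∀ s ∈ Z, χ s = 0) ∧
      (∀ s, n ≤ |s| → χ s = 0) ∧ ∫ s in (-n)..n, (1 - χ s ^ 2) ≤ 4 * η := by
  obtain ⟨U, hUZ, hUo, hUv⟩ := Z.exists_isOpen_lt_of_lt (ENNReal.ofReal (2 * η))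
    (hvol.trans_lt ((ENNReal.ofReal_lt_ofReal_iff (by linarith)).2 (by linarith))) (μ := volume)
  have hT : IsClosed (Z ∪ {s : ℝ | n ≤ |s|}) := hZ.union (isClosed_le continuous_const continuous_abs)
  have hO : IsOpen (U ∪ {s : ℝ | n - η < |s|}) := hUo.union (isOpen_lt continuous_const continuous_abs)
  have hd : Disjoint (Z ∪ {s : ℝ | n ≤ |s|}) (U ∪ {s : ℝ | n - η < |s|})ᶜ := by
    rw [Set.disjoint_compl_right_iff_subset]
    apply Set.union_subset_union hUZ
    intro s hs
    simp only [mem_setOf_eq] at hs ⊢
    linarith
  obtain ⟨f, hf0, hf1, hf⟩ := exists_contMDiffMap_zero_one_of_isClosed (n := (⊤ : ℕ∞)) 𝓘(ℝ, ℝ) hT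
    hO.isClosed_compl hd
  have hcd : ContDiff ℝ ∞ (f : ℝ → ℝ) := f.contMDiff.contDiff
  refine ⟨f, hcd, fun s => ⟨(hf s).1, (hf s).2⟩, fun s hs => hf0 (Or.inl hs),
    fun s hs => hf0 (Or.inr hs), ?_⟩
  obtain ⟨S, hS⟩ : ∃ S, S = U ∪ (Icc (-n) (-n + η) ∪ Icc (n - η) n) := ⟨_, rfl⟩
  have hSm : MeasurableSet S := by
    rw [hS]; exact hUo.measurableSet.union (measurableSet_Icc.union measurableSet_Icc)
  have hSv : volume S ≤ ENNReal.ofReal (4 * η) := by
    rw [hS]
    calc volume (U ∪ (Icc (-n) (-n + η) ∪ Icc (n - η) n))
        ≤ volume U + (volume (Icc (-n) (-n + η)) + volume (Icc (n - η) n)) :=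
          (measure_union_le _ _).trans (add_le_add le_rfl (measure_union_le _ _))
      _ ≤ ENNReal.ofReal (2 * η) + (ENNReal.ofReal η + ENNReal.ofReal η) := by
          rw [Real.volume_Icc, Real.volume_Icc]
          have e1 : -n + η - -n = η := by ring
          have e2 : n - (n - η) = η := by ring
          rw [e1, e2]
          exact add_le_add hUv.le le_rfl
      _ = ENNReal.ofReal (4 * η) := by
          rw [← ENNReal.ofReal_add hη.le hη.le, ← ENNReal.ofReal_add (by linarith) (by linarith)]
          congr 1; ring
  have hSfin : volume S ≠ ⊤ := ne_top_of_le_ne_top ENNReal.ofReal_ne_top hSv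
  have hint : IntervalIntegrable (fun s => S.indicator (fun _ => (1 : ℝ)) s) volume (-n) n :=
    ((integrable_indicator_iff hSm).2 (integrableOn_const hSfin)).intervalIntegrable
  calc ∫ s in (-n)..n, (1 - f s ^ 2) ≤ ∫ s in (-n)..n, S.indicator (fun _ => (1 : ℝ)) s := by
        apply intervalIntegral.integral_mono_on (by linarith)
        · exact (Continuous.intervalIntegrable (by
            have := hcd.continuous
            fun_prop) _ _)
        · exact hint
        · intro s hs
          by_cases h : s ∈ S
          · rw [indicator_of_mem h]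
            nlinarith [sq_nonneg (f s)]
          · rw [indicator_of_notMem h]
            have h1 : f s = 1 := by
              apply hf1
              rw [hS] at h
              simp only [mem_union, not_or, mem_Icc, not_and, not_le] at h
              obtain ⟨h1, h2, h3⟩ := h
              simp only [mem_compl_iff, mem_union, mem_setOf_eq, not_or, not_lt]
              refine ⟨h1, ?_⟩
              rw [abs_le]
              have h4 := h2 hs.1
              constructor
              · linarith
              · by_contra h5
                push Not at h5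
                have := h3 h5.le
                linarith [hs.2]
            rw [h1]
            norm_num
    _ ≤ ∫ s, S.indicator (fun _ => (1 : ℝ)) s := by
        rw [intervalIntegral.integral_of_le (by linarith)]
        apply setIntegral_le_integral
        · exact (integrable_indicator_iff hSm).2 (integrableOn_const hSfin)
        · exact Filter.Eventually.of_forall fun s => indicator_nonneg (fun _ _ => zero_le_one) s
    _ = (volume S).toReal := by
        rw [integral_indicator hSm, setIntegral_const]
        simp [Measure.real]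
    _ ≤ 4 * η := by
        have := ENNReal.toReal_mono ENNReal.ofReal_ne_top hSv
        rwa [ENNReal.toReal_ofReal (by linarith)] at this

end Pool.Agent.N466.Bal
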