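import Pool.Agent.N466.Bal.Basic

/-!
# Energy gained by an oscillating perturbation
-/

set_option autoImplicit false

namespace Pool.Agent.N466.Bal

open MeasureTheory Set
open scoped ContDiff

/-- Oscillating integrals are small. -/
theorem osc {φ : ℝ → ℝ} (hφ : ContDiff ℝ ∞ φ) {n : ℝ} (hn : 0 ≤ n) : ∃ C : ℝ, 0 ≤ C ∧
    ∀ w : ℝ, 0 < w → |∫ s in (-n)..n, φ s * Real.cos (w * s)| ≤ C / w := by
  have hc : Continuous (deriv φ) := ((contDiff_infty_iff_deriv (𝕜 := ℝ)).1 hφ).2.continuous
  have hφc : Continuous φ := hφ.continuous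
  have hd : ∀ x, HasDerivAt φ (deriv φ x) x := fun x => (hφ.differentiable (by simp) x).hasDerivAt
  obtain ⟨B, hB⟩ : ∃ B, B = ∫ s in (-n)..n, |deriv φ s| := ⟨_, rfl⟩
  have hB0 : 0 ≤ B := by
    rw [hB]
    exact intervalIntegral.integral_nonneg (by linarith) fun x _ => abs_nonneg _
  refine ⟨|φ n| + |φ (-n)| + B, by positivity, ?_⟩
  intro w hw
  have hs : ∀ x : ℝ, HasDerivAt (fun x => Real.sin (w * x) / w) (Real.cos (w * x)) x := by
    intro x
    have h1 : HasDerivAt (fun x : ℝ => w * x) w x := by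
      simpa using (hasDerivAt_id x).const_mul w
    have h2 := (h1.sin).div_const w
    have e : Real.cos (w * x) = Real.cos (w * x) * w / w := by field_simp
    rw [e]
    exact h2
  have hparts := intervalIntegral.integral_mul_deriv_eq_deriv_mul (a := -n) (b := n) (u := φ)
    (v := fun x => Real.sin (w * x) / w) (u' := deriv φ) (v' := fun x => Real.cos (w * x))
    (fun x _ => hd x) (fun x _ => hs x) (hc.intervalIntegrable _ _)
    (Continuous.intervalIntegrable (by fun_prop) _ _)
  rw [hparts]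
  have hsin : ∀ x : ℝ, |Real.sin (w * x) / w| ≤ 1 / w := by
    intro x
    rw [abs_div, abs_of_pos hw]
    exact div_le_div_of_nonneg_right (Real.abs_sin_le_one _) hw.le
  have h1 : |∫ x in (-n)..n, deriv φ x * (Real.sin (w * x) / w)| ≤ B / w := by
    calc |∫ x in (-n)..n, deriv φ x * (Real.sin (w * x) / w)|
        ≤ ∫ x in (-n)..n, |deriv φ x * (Real.sin (w * x) / w)| :=
          intervalIntegral.abs_integral_le_integral_abs (by linarith)
      _ ≤ ∫ x in (-n)..n, |deriv φ x| * (1 / w) := by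
          apply intervalIntegral.integral_mono_on (by linarith)
          · exact Continuous.intervalIntegrable (by fun_prop) _ _
          · exact Continuous.intervalIntegrable (by fun_prop) _ _
          · intro x _
            rw [abs_mul]
            exact mul_le_mul_of_nonneg_left (hsin x) (abs_nonneg _)
      _ = B / w := by
          rw [intervalIntegral.integral_mul_const, hB]
          ring
  calc |φ n * (Real.sin (w * n) / w) - φ (-n) * (Real.sin (w * -n) / w) -
        ∫ x in (-n)..n, deriv φ x * (Real.sin (w * x) / w)|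
      ≤ |φ n * (Real.sin (w * n) / w) - φ (-n) * (Real.sin (w * -n) / w)| +
        |∫ x in (-n)..n, deriv φ x * (Real.sin (w * x) / w)| := abs_sub _ _
    _ ≤ |φ n * (Real.sin (w * n) / w)| + |φ (-n) * (Real.sin (w * -n) / w)| + B / w := by
        have := abs_sub (φ n * (Real.sin (w * n) / w)) (φ (-n) * (Real.sin (w * -n) / w))
        linarith
    _ ≤ |φ n| * (1 / w) + |φ (-n)| * (1 / w) + B / w := by
        rw [abs_mul, abs_mul]
        have a1 := mul_le_mul_of_nonneg_left (hsin n) (abs_nonneg (φ n))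
        have a2 := mul_le_mul_of_nonneg_left (hsin (-n)) (abs_nonneg (φ (-n)))
        linarith
    _ = (|φ n| + |φ (-n)| + B) / w := by ring

/-- The derivative of the oscillating amplitude. -/
noncomputable def amp' (g : ℝ → ℝ) (w s : ℝ) : ℝ :=
  g s * Real.cos (w * s) + deriv g s * Real.sin (w * s) / w

/-- The oscillating amplitude. -/
noncomputable def amp (g : ℝ → ℝ) (w s : ℝ) : ℝ := g s * Real.sin (w * s) / w

theorem hasDerivAt_amp {g : ℝ → ℝ} (hg : ContDiff ℝ ∞ g) {w : ℝ} (hw : 0 < w) (s : ℝ) :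
    HasDerivAt (amp g w) (amp' g w s) s := by
  have hd : HasDerivAt g (deriv g s) s := (hg.differentiable (by simp) s).hasDerivAt
  have h1 : HasDerivAt (fun x : ℝ => w * x) w s := by
    simpa using (hasDerivAt_id s).const_mul w
  have h2 := (hd.mul h1.sin).div_const w
  have e : amp' g w s = (deriv g s * Real.sin (w * s) + g s * (Real.cos (w * s) * w)) / w := by
    unfold amp'
    field_simp
    ring
  rw [e]
  exact h2

theorem contDiff_amp' {g : ℝ → ℝ} (hg : ContDiff ℝ ∞ g) (w : ℝ) : ContDiff ℝ ∞ (amp' g w) := by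
  have hd : ContDiff ℝ ∞ (deriv g) := ((contDiff_infty_iff_deriv (𝕜 := ℝ)).1 hg).2
  have h1 : ContDiff ℝ ∞ (fun s : ℝ => w * s) := contDiff_const.mul contDiff_id
  unfold amp'
  exact (hg.mul h1.cos).add ((hd.mul h1.sin).div_const w)

theorem amp_le {g : ℝ → ℝ} {w : ℝ} (hw : 0 < w) (s : ℝ) : |amp g w s| ≤ |g s| / w := by
  unfold amp
  rw [abs_div, abs_mul, abs_of_pos hw]
  apply div_le_div_of_nonneg_right _ hw.le
  have := mul_le_mul_of_nonneg_left (Real.abs_sin_le_one (w * s)) (abs_nonneg (g s))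
  linarith

theorem amp'_le {g : ℝ → ℝ} {w : ℝ} (hw : 0 < w) (s : ℝ) :
    |amp' g w s| ≤ |g s| + |deriv g s| / w := by
  unfold amp'
  have h1 : |g s * Real.cos (w * s)| ≤ |g s| := by
    rw [abs_mul]
    have := mul_le_mul_of_nonneg_left (Real.abs_cos_le_one (w * s)) (abs_nonneg (g s))
    linarith
  have h2 : |deriv g s * Real.sin (w * s) / w| ≤ |deriv g s| / w := by
    rw [abs_div, abs_mul, abs_of_pos hw]
    apply div_le_div_of_nonneg_right _ hw.le
    have := mul_le_mul_of_nonneg_left (Real.abs_sin_le_one (w * s)) (abs_nonneg (deriv g s))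
    linarith
  exact (abs_add_le _ _).trans (add_le_add h1 h2)

/-- The energy gained by the perturbation. -/
theorem energy {ρ : ℝ → V} (hρ : ∀ i, ContDiff ℝ ∞ fun s => ρ s i) {u : V}
    (hu : 2 ≤ ∑ i, u i ^ 2) {g : ℝ → ℝ} (hg : ContDiff ℝ ∞ g) {n : ℝ} (hn : 0 ≤ n) :
    ∃ C : ℝ, 0 ≤ C ∧ ∀ w : ℝ, 0 < w →
      (∫ s in (-n)..n, ∑ i, ρ s i ^ 2) + (∫ s in (-n)..n, g s ^ 2) - C / w ≤
        ∫ s in (-n)..n, ∑ i, (ρ s i + amp' g w s * u i) ^ 2 := by
  have hρc : ∀ i, Continuous fun s => ρ s i := fun i => (hρ i).continuous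
  have hgc : Continuous g := hg.continuous
  have hdg : ContDiff ℝ ∞ (deriv g) := ((contDiff_infty_iff_deriv (𝕜 := ℝ)).1 hg).2
  have hdgc : Continuous (deriv g) := hdg.continuous
  obtain ⟨q, hq⟩ : ∃ q : ℝ → ℝ, q = fun s => ∑ i, ρ s i * u i := ⟨_, rfl⟩
  have hqd : ContDiff ℝ ∞ q := by
    rw [hq]
    exact ContDiff.sum fun i _ => (hρ i).mul contDiff_const
  have hqc : Continuous q := hqd.continuous
  obtain ⟨C1, hC1, H1⟩ := osc (φ := fun s => 2 * (g s * q s)) (contDiff_const.mul (hg.mul hqd)) hn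
  obtain ⟨C2, hC2, H2⟩ := osc (φ := fun s => g s ^ 2) (hg.pow 2) hn
  obtain ⟨B, hB⟩ : ∃ B, B = ∫ s in (-n)..n, (4 * |g s * deriv g s| + 2 * |deriv g s * q s|) :=
    ⟨_, rfl⟩
  have hB0 : 0 ≤ B := by
    rw [hB]
    exact intervalIntegral.integral_nonneg (by linarith) fun x _ => by positivity
  refine ⟨C1 + C2 + B, by positivity, ?_⟩
  intro w hw
  have hpt : ∀ s, ∑ i, ρ s i ^ 2 + g s ^ 2 + 2 * (g s * q s) * Real.cos (w * s) +
      g s ^ 2 * Real.cos (2 * w * s) - (4 * |g s * deriv g s| + 2 * |deriv g s * q s|) / w ≤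
      ∑ i, (ρ s i + amp' g w s * u i) ^ 2 := by
    intro s
    have e1 : ∑ i, (ρ s i + amp' g w s * u i) ^ 2 =
        ∑ i, ρ s i ^ 2 + 2 * amp' g w s * q s + amp' g w s ^ 2 * ∑ i, u i ^ 2 := by
      rw [hq]
      simp only [Fin.sum_univ_four]
      ring
    rw [e1]
    have h1 : amp' g w s ^ 2 * 2 ≤ amp' g w s ^ 2 * ∑ i, u i ^ 2 :=
      mul_le_mul_of_nonneg_left hu (sq_nonneg _)
    obtain ⟨x, hx⟩ : ∃ x, x = Real.cos (w * s) := ⟨_, rfl⟩
    obtain ⟨y, hy⟩ : ∃ y, y = Real.sin (w * s) := ⟨_, rfl⟩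
    have hcos : Real.cos (2 * w * s) = 2 * x ^ 2 - 1 := by
      rw [hx, ← Real.cos_two_mul]
      congr 1
      ring
    have hx1 : |x| ≤ 1 := by rw [hx]; exact Real.abs_cos_le_one _
    have hy1 : |y| ≤ 1 := by rw [hy]; exact Real.abs_sin_le_one _
    have ha : amp' g w s = g s * x + deriv g s * y / w := by rw [hx, hy]; rfl
    rw [hcos, ← hx]
    -- the two error terms
    have e2 : -(|g s * deriv g s| / w) ≤ g s * deriv g s * (x * y) / w := by
      have : |g s * deriv g s * (x * y)| ≤ |g s * deriv g s| := by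
        rw [abs_mul, abs_mul x y]
        have : |x| * |y| ≤ 1 := by nlinarith [abs_nonneg x, abs_nonneg y]
        nlinarith [abs_nonneg (g s * deriv g s)]
      have h3 := (abs_le.1 this).1
      rw [← neg_div]
      exact div_le_div_of_nonneg_right h3 hw.le
    have e3 : -(|deriv g s * q s| / w) ≤ deriv g s * q s * y / w := by
      have : |deriv g s * q s * y| ≤ |deriv g s * q s| := by
        rw [abs_mul]
        nlinarith [abs_nonneg (deriv g s * q s)]
      have h3 := (abs_le.1 this).1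
      rw [← neg_div]
      exact div_le_div_of_nonneg_right h3 hw.le
    have e4 : amp' g w s ^ 2 = g s ^ 2 * x ^ 2 + 2 * (g s * deriv g s * (x * y) / w) +
        (deriv g s * y / w) ^ 2 := by
      rw [ha]; ring
    have e5 : 2 * amp' g w s * q s = 2 * (g s * q s) * x + 2 * (deriv g s * q s * y / w) := by
      rw [ha]; ring
    have e6 : (4 * |g s * deriv g s| + 2 * |deriv g s * q s|) / w =
        4 * (|g s * deriv g s| / w) + 2 * (|deriv g s * q s| / w) := by ring
    rw [e6, e5]
    nlinarith [sq_nonneg (deriv g s * y / w)]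
  have hampc : Continuous (amp' g w) := (contDiff_amp' hg w).continuous
  have hI := intervalIntegral.integral_mono_on (μ := volume) (a := -n) (b := n) (by linarith)
    (Continuous.intervalIntegrable (by fun_prop) _ _)
    (Continuous.intervalIntegrable (by fun_prop) _ _) (fun s _ => hpt s)
  refine le_trans ?_ hI
  rw [intervalIntegral.integral_sub, intervalIntegral.integral_add, intervalIntegral.integral_add,
    intervalIntegral.integral_add, intervalIntegral.integral_div, ← hB]
  · have h1 := (abs_le.1 (H1 w hw)).1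
    have h2 := (abs_le.1 (H2 (2 * w) (by linarith))).1
    have h3 : C2 / (2 * w) ≤ C2 / w := by
      apply div_le_div_of_nonneg_left hC2 hw
      linarith
    have h4 : (C1 + C2 + B) / w = C1 / w + C2 / w + B / w := by ring
    rw [h4]
    linarith
  all_goals exact Continuous.intervalIntegrable (by fun_prop) _ _

end Pool.Agent.N466.Bal
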