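import Pool.Agent.N466.Bal.Generic

/-!
# The colouring
-/

set_option autoImplicit false

namespace Pool.Agent.N466.Bal

open MeasureTheory Set Filter
open scoped ContDiff Topology

theorem exists_coloring : ∃ c : ℝ → Fin 4, Measurable c ∧ ∀ a b a' b' : ℝ, a < b → b ≤ a' →
    a' < b' → ∃ i, volume (Icc a b ∩ c ⁻¹' {i}) ≠ volume (Icc a' b' ∩ c ⁻¹' {i}) := by
  obtain ⟨F, hFc, hmono0, hsum, hPhi, hE⟩ := exists_generic
  have hmono : ∀ i s t, s ≤ t → 0 ≤ F t i - F s i ∧ F t i - F s i ≤ t - s := by
    intro i s t hst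
    refine ⟨hmono0 i s t hst, ?_⟩
    rw [← hsum s t]
    exact Finset.single_le_sum (f := fun i => F t i - F s i) (fun j _ => hmono0 j s t hst)
      (Finset.mem_univ i)
  have hmon : ∀ i, Monotone fun t => F t i := fun i s t h => by
    have := hmono0 i s t h
    show F s i ≤ F t i
    linarith
  have hlip : ∀ i, LipschitzWith 1 fun t => F t i := by
    intro i
    apply LipschitzWith.of_dist_le_mul
    intro s t
    rw [Real.dist_eq, Real.dist_eq, NNReal.coe_one, one_mul]
    rcases le_total s t with h | h
    · have := hmono i s t h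
      rw [abs_sub_comm, abs_sub_comm s t, abs_of_nonneg this.1, abs_of_nonneg (by linarith)]
      exact this.2
    · have := hmono i t s h
      rw [abs_of_nonneg this.1, abs_of_nonneg (by linarith)]
      exact this.2
  obtain ⟨d, hd⟩ : ∃ d : Fin 4 → ℝ → ℝ, d = fun i => deriv fun t => F t i := ⟨_, rfl⟩
  have hdm : ∀ i, Measurable (d i) := by
    intro i; rw [hd]; exact measurable_deriv _
  have hd0 : ∀ i s, 0 ≤ d i s := by
    intro i s
    rw [hd]
    exact (hmon i).deriv_nonneg
  have hdiff : ∀ᵐ s, ∀ i, DifferentiableAt ℝ (fun t => F t i) s := by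
    rw [ae_all_iff]
    exact fun i => (hmon i).ae_differentiableAt
  have hdsum : ∀ᵐ s, ∑ i, d i s = 1 := by
    filter_upwards [hdiff] with s hs
    have h1 : HasDerivAt (fun t => ∑ i, F t i) (∑ i, d i s) s := by
      apply HasDerivAt.fun_sum
      intro i _
      rw [hd]
      exact (hs i).hasDerivAt
    have h2 : (fun t => ∑ i, F t i) = fun t => t + ((∑ i, F 0 i)) := by
      ext t
      have := hsum 0 t
      rw [Finset.sum_sub_distrib] at this
      linarith
    rw [h2] at h1
    have h3 : HasDerivAt (fun t : ℝ => t + ((∑ i, F 0 i))) 1 s := (hasDerivAt_id s).add_const _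
    exact h1.unique h3
  have hd1 : ∀ᵐ s, ∀ i, d i s ≤ 1 := by
    filter_upwards [hdsum] with s hs i
    rw [← hs]
    exact Finset.single_le_sum (f := fun i => d i s) (fun j _ => hd0 j s) (Finset.mem_univ i)
  have hsqle : ∀ᵐ s, 0 ≤ 1 - ∑ i, d i s ^ 2 := by
    filter_upwards [hdsum, hd1] with s hs hs1
    have : ∑ i, d i s ^ 2 ≤ ∑ i, d i s := by
      apply Finset.sum_le_sum
      intro i _
      nlinarith [hd0 i s, hs1 i]
    linarith
  have hint : ∀ (i : Fin 4) (a b : ℝ), IntervalIntegrable (fun s => d i s ^ 2) volume a b := by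
    intro i a b
    apply (intervalIntegrable_const (c := (1 : ℝ)) (a := a) (b := b) (μ := volume)).mono_fun'
    · exact ((hdm i).pow_const 2).aestronglyMeasurable
    · apply ae_restrict_of_ae
      filter_upwards [hd1] with s hs
      rw [Real.norm_eq_abs, abs_of_nonneg (sq_nonneg _)]
      nlinarith [hd0 i s, hs i]
  -- energy
  have hen : ∀ n : ℕ, 2 * ((n : ℝ) + 1) ≤ ∫ s in (-((n : ℝ) + 1))..((n : ℝ) + 1), ∑ i, d i s ^ 2 := by
    intro n
    obtain ⟨m, hm⟩ : ∃ m : ℝ, m = (n : ℝ) + 1 := ⟨_, rfl⟩
    rw [← hm]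
    have hlim : Tendsto (fun h => Dq m h F) (𝓝[>] 0) (𝓝 (∫ s in (-m)..m, ∑ i, d i s ^ 2)) := by
      have h1 : ∀ i : Fin 4, Tendsto (fun h : ℝ => ∫ s in (-m)..m, ((F (s + h) i - F s i) / h) ^ 2)
          (𝓝[>] 0) (𝓝 (∫ s in (-m)..m, d i s ^ 2)) := by
        intro i
        rw [hd]
        exact dq_tendsto (f := fun t => F t i) (hmono i) m
      have h2 := tendsto_finset_sum Finset.univ (fun i _ => h1 i)
      have hc : ∀ i, Continuous fun s => F s i := fun i => (continuous_apply i).comp hFc
      unfold Dq
      rw [intervalIntegral.integral_finset_sum (fun i _ => hint i _ _)]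
      refine h2.congr fun h => ?_
      rw [intervalIntegral.integral_finset_sum]
      intro i _
      have := hc i
      exact Continuous.intervalIntegrable (by fun_prop) _ _
    by_contra hcon
    push Not at hcon
    obtain ⟨r, hr1, hr2⟩ := exists_between hcon
    have h2 := hlim.eventually (gt_mem_nhds hr1)
    rw [eventually_nhdsWithin_iff, Metric.eventually_nhds_iff] at h2
    obtain ⟨ε, hε, h3⟩ := h2
    obtain ⟨j, hj⟩ := exists_nat_gt (max (1 / ε) (1 / (2 * m - r)))
    have hj1 : 1 / ((j : ℝ) + 1) < ε := by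
      have := (le_max_left _ _).trans_lt hj
      rw [div_lt_iff₀ hε] at this
      rw [div_lt_iff₀ (by positivity)]
      nlinarith
    have hj2 : 1 / ((j : ℝ) + 1) < 2 * m - r := by
      have h5 : 0 < 2 * m - r := by linarith
      have := (le_max_right _ _).trans_lt hj
      rw [div_lt_iff₀ h5] at this
      rw [div_lt_iff₀ (by positivity)]
      nlinarith
    obtain ⟨h, hh0, hh1, hh2⟩ := hE n j
    rw [← hm] at hh2
    have := h3 (y := h) (by rw [Real.dist_eq, sub_zero, abs_of_pos hh0]; linarith) hh0
    linarith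
  have hone : ∀ᵐ s, ∑ i, d i s ^ 2 = 1 := by
    have h1 : ∀ n : ℕ, ∀ᵐ s, s ∈ Ioc (-((n : ℝ) + 1)) ((n : ℝ) + 1) → ∑ i, d i s ^ 2 = 1 := by
      intro n
      have hn : -((n : ℝ) + 1) ≤ (n : ℝ) + 1 := by
        have : (0 : ℝ) ≤ n := Nat.cast_nonneg n
        linarith
      have hsumint : IntervalIntegrable (fun s => ∑ i, d i s ^ 2) volume (-((n : ℝ) + 1))
          ((n : ℝ) + 1) := by
        have e : (fun s => ∑ i, d i s ^ 2) = ∑ i, fun s => d i s ^ 2 := by
          ext s
          simp
        rw [e]
        exact IntervalIntegrable.sum Finset.univ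
          (fun (i : Fin 4) _ => hint i (-((n : ℝ) + 1)) ((n : ℝ) + 1))
      have hi : IntervalIntegrable (fun s => 1 - ∑ i, d i s ^ 2) volume (-((n : ℝ) + 1))
          ((n : ℝ) + 1) := intervalIntegrable_const.sub hsumint
      have hz : ∫ s in (-((n : ℝ) + 1))..((n : ℝ) + 1), (1 - ∑ i, d i s ^ 2) = 0 := by
        apply le_antisymm
        · rw [intervalIntegral.integral_sub intervalIntegrable_const hsumint]
          have := hen n
          simp only [intervalIntegral.integral_const, smul_eq_mul, mul_one, sub_neg_eq_add]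
          linarith
        · apply intervalIntegral.integral_nonneg_of_ae hn
          exact hsqle
      rw [intervalIntegral.integral_eq_zero_iff_of_le_of_nonneg_ae hn
        (ae_restrict_of_ae hsqle) hi] at hz
      have h2 := (ae_restrict_iff' measurableSet_Ioc).1 hz
      filter_upwards [h2] with s hs hs'
      have := hs hs'
      simp only [Pi.zero_apply] at this
      linarith
    rw [← ae_all_iff] at h1
    filter_upwards [h1] with s hs
    obtain ⟨n, hn⟩ := exists_nat_gt |s|
    apply hs n
    have := abs_lt.1 hn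
    constructor <;> linarith
  -- the colouring
  obtain ⟨c, hc⟩ : ∃ c : ℝ → Fin 4, c = fun s => if d 0 s = 1 then 0 else if d 1 s = 1 then 1
      else if d 2 s = 1 then 2 else 3 := ⟨_, rfl⟩
  have hcm : Measurable c := by
    rw [hc]
    have hs : ∀ i, MeasurableSet {s | d i s = 1} := fun i =>
      measurableSet_eq_fun (hdm i) measurable_const
    exact Measurable.ite (hs 0) measurable_const (Measurable.ite (hs 1) measurable_const
      (Measurable.ite (hs 2) measurable_const measurable_const))
  have hcd : ∀ᵐ s, ∀ i, (if c s = i then (1 : ℝ) else 0) = d i s := by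
    filter_upwards [hdsum, hd1, hone] with s h1 h2 h3
    have h4 : ∀ i, d i s = 0 ∨ d i s = 1 := by
      have h5 : ∑ i, d i s * (1 - d i s) = 0 := by
        have : ∑ i, d i s * (1 - d i s) = ∑ i, d i s - ∑ i, d i s ^ 2 := by
          rw [← Finset.sum_sub_distrib]
          apply Finset.sum_congr rfl
          intro i _
          ring
        rw [this, h1, h3]
        ring
      intro i
      have h6 := (Finset.sum_eq_zero_iff_of_nonneg (fun j _ =>
        mul_nonneg (hd0 j s) (by linarith [h2 j]))).1 h5 i (Finset.mem_univ i)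
      rcases mul_eq_zero.1 h6 with h | h
      · exact Or.inl h
      · right; linarith
    rw [Fin.sum_univ_four] at h1
    intro i
    have k0 := h4 0
    have k1 := h4 1
    have k2 := h4 2
    have k3 := h4 3
    rw [hc]
    rcases k0 with k0 | k0 <;> rcases k1 with k1 | k1 <;> rcases k2 with k2 | k2 <;>
      rcases k3 with k3 | k3 <;> rw [k0, k1, k2, k3] at h1 <;>
      first
      | (exfalso; norm_num at h1; done)
      | (fin_cases i <;> simp [k0, k1, k2, k3])
  have hvol : ∀ (i : Fin 4) (a b : ℝ), a ≤ b →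
      (volume (Icc a b ∩ c ⁻¹' {i})).toReal = F b i - F a i := by
    intro i a b hab
    have hms : MeasurableSet (c ⁻¹' {i}) := hcm (measurableSet_singleton i)
    have h1 : ∫ s in a..b, d i s = F b i - F a i := by
      rw [hd]
      exact ((hlip i).lipschitzOnWith (s := uIcc a b)).absolutelyContinuousOnInterval.integral_deriv_eq_sub
    have h2 : ∫ s in a..b, d i s = ∫ s in a..b, (c ⁻¹' {i}).indicator (fun _ => (1 : ℝ)) s := by
      apply intervalIntegral.integral_congr_ae
      filter_upwards [hcd] with s hs _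
      rw [← hs i]
      by_cases h : c s = i
      · rw [if_pos h, indicator_of_mem (show s ∈ c ⁻¹' {i} from h)]
      · rw [if_neg h, indicator_of_notMem (show s ∉ c ⁻¹' {i} from h)]
    rw [← h1, h2, intervalIntegral.integral_of_le hab, ← integral_Icc_eq_integral_Ioc,
      setIntegral_indicator hms, setIntegral_const]
    simp [Measure.real]
  refine ⟨c, hcm, ?_⟩
  intro a b a' b' hab hba hab'
  by_contra hcon
  push Not at hcon
  have heq : ∀ i, F b i - F a i = F b' i - F a' i := by
    intro i
    rw [← hvol i a b hab.le, ← hvol i a' b' hab'.le, hcon i]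
  have hlen : b - a = b' - a' := by
    rw [← hsum a b, ← hsum a' b']
    exact Finset.sum_congr rfl fun i _ => heq i
  apply hPhi a (a' - a) (b - a) (by linarith) (by linarith)
  ext i
  have e1 : a' + (b - a) = b' := by linarith
  have e2 : a + (a' - a) = a' := by ring
  have e3 : a + (b - a) = b := by ring
  simp only [Phi, Pi.add_apply, Pi.sub_apply, e2, e1, e3, Pi.zero_apply]
  have := heq i
  linarith

end Pool.Agent.N466.Bal
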