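import Pool.Agent.N466.Bal.Sup

/-!
# The generic curve
-/

set_option autoImplicit false

namespace Pool.Agent.N466.Bal

open MeasureTheory Set Filter
open scoped ContDiff Topology BoundedContinuousFunction

/-- The energy of the difference quotient. -/
noncomputable def Dq (m h : ℝ) (F : ℝ → V) : ℝ :=
  ∫ s in (-m)..m, ∑ i, ((F (s + h) i - F s i) / h) ^ 2

/-- The set of admissible perturbations of the base curve. -/
def SS : Set (ℝ →ᵇ V) := {H | ∃ ρ, Curve (fun t => F0 t + H t) ρ}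

/-- The separation condition. -/
def Ok (k : ℕ) (H : ℝ →ᵇ V) : Prop := ∃ c : ℝ, 0 < c ∧ ∀ p h l : ℝ, 1 / ((k : ℝ) + 1) ≤ h →
  1 / ((k : ℝ) + 1) ≤ l → -(k : ℝ) ≤ p → p + h + l ≤ k → c ≤ ‖Phi (fun t => F0 t + H t) p h l‖

/-- The energy condition. -/
def Ej (n j : ℕ) (H : ℝ →ᵇ V) : Prop := ∃ h : ℝ, 0 < h ∧ h < 1 / ((j : ℝ) + 1) ∧
  2 * ((n : ℝ) + 1) - 1 / ((j : ℝ) + 1) < Dq ((n : ℝ) + 1) h (fun t => F0 t + H t)

theorem continuous_F0 : Continuous F0 :=
  continuous_pi fun i => continuous_iff_continuousAt.2 fun s => (curve_base.der i s).continuousAt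

theorem Curve.continuous {F ρ : ℝ → V} (hC : Curve F ρ) : Continuous F :=
  continuous_pi fun i => continuous_iff_continuousAt.2 fun s => (hC.der i s).continuousAt

theorem mem_SS_near {H : ℝ →ᵇ V} {F' ρ' : ℝ → V} (hC : Curve F' ρ') {δ : ℝ} (hδ : 0 ≤ δ)
    (hF : ∀ s, ‖F' s - (F0 s + H s)‖ ≤ δ) : ∃ H' : ℝ →ᵇ V, H' ∈ SS ∧ dist H' H ≤ δ ∧
      (fun t => F0 t + H' t) = F' := by
  obtain ⟨H', hH'⟩ : ∃ H' : ℝ →ᵇ V, ∀ t, H' t = F' t - F0 t := by
    refine ⟨BoundedContinuousFunction.ofNormedAddCommGroup (fun t => F' t - F0 t)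
      (hC.continuous.sub continuous_F0) (δ + ‖H‖) ?_, fun t => rfl⟩
    intro t
    have h1 : F' t - F0 t = (F' t - (F0 t + H t)) + H t := by abel
    rw [h1]
    exact (norm_add_le _ _).trans (add_le_add (hF t) (H.norm_coe_le_norm t))
  have heq : (fun t => F0 t + H' t) = F' := by
    ext1 t
    rw [hH']
    abel
  refine ⟨H', ⟨ρ', by rw [heq]; exact hC⟩, ?_, heq⟩
  rw [BoundedContinuousFunction.dist_le hδ]
  intro t
  rw [dist_eq_norm, hH']
  have : F' t - F0 t - H t = F' t - (F0 t + H t) := by abel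
  rw [this]
  exact hF t

theorem zero_mem_SS : (0 : ℝ →ᵇ V) ∈ SS := by
  refine ⟨rho0, ?_⟩
  have : (fun t => F0 t + (0 : ℝ →ᵇ V) t) = F0 := by
    ext1 t; simp
  rw [this]
  exact curve_base

theorem ok_of_mem {H : ℝ →ᵇ V} (hH : H ∈ SS) (k : ℕ) : Ok k H := by
  obtain ⟨ρ, hC⟩ := hH
  obtain ⟨c, hc, h⟩ := hC.nd k
  have hk : 0 < 1 / ((k : ℝ) + 1) := by positivity
  refine ⟨c * (1 / ((k : ℝ) + 1)) * (1 / ((k : ℝ) + 1)), by positivity, ?_⟩
  intro p x y hx hy hp hq
  refine le_trans ?_ (h p x y (hk.le.trans hx) (hk.le.trans hy) hp hq)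
  apply mul_le_mul _ hy hk.le (mul_nonneg hc.le (hk.le.trans hx))
  exact mul_le_mul_of_nonneg_left hx hc.le

theorem ok_open {H : ℝ →ᵇ V} {k : ℕ} (hH : Ok k H) : ∃ ε : ℝ, 0 < ε ∧
    ∀ H' : ℝ →ᵇ V, dist H' H < ε → Ok k H' := by
  obtain ⟨c, hc, h⟩ := hH
  refine ⟨c / 8, by positivity, ?_⟩
  intro H' hd
  refine ⟨c / 2, by positivity, ?_⟩
  intro p x y hx hy hp hq
  have h1 := h p x y hx hy hp hq
  have hd' : ∀ t, ‖H' t - H t‖ ≤ c / 8 := by
    intro t
    rw [← dist_eq_norm]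
    exact (BoundedContinuousFunction.dist_coe_le_dist t).trans hd.le
  have h2 : Phi (fun t => F0 t + H t) p x y = Phi (fun t => F0 t + H' t) p x y -
      ((H' (p + x + y) - H (p + x + y)) - (H' (p + x) - H (p + x)) - (H' (p + y) - H (p + y)) +
        (H' p - H p)) := by
    ext i
    simp only [Phi, Pi.add_apply, Pi.sub_apply]
    ring
  have h3 : ‖(H' (p + x + y) - H (p + x + y)) - (H' (p + x) - H (p + x)) -
      (H' (p + y) - H (p + y)) + (H' p - H p)‖ ≤ c / 8 + c / 8 + c / 8 + c / 8 := by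
    refine (norm_add_le _ _).trans (add_le_add ?_ (hd' _))
    refine (norm_sub_le _ _).trans (add_le_add ?_ (hd' _))
    exact (norm_sub_le _ _).trans (add_le_add (hd' _) (hd' _))
  have h4 : ‖Phi (fun t => F0 t + H t) p x y‖ ≤ ‖Phi (fun t => F0 t + H' t) p x y‖ +
      (c / 8 + c / 8 + c / 8 + c / 8) := by
    rw [h2]
    exact (norm_sub_le _ _).trans (add_le_add le_rfl h3)
  linarith

theorem continuous_Dq (m h : ℝ) : Continuous fun H : ℝ →ᵇ V => Dq m h (fun t => F0 t + H t) := by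
  unfold Dq
  apply intervalIntegral.continuous_parametric_intervalIntegral_of_continuous'
  show Continuous fun q : (ℝ →ᵇ V) × ℝ => ∑ i, (((F0 (q.2 + h) + q.1 (q.2 + h)) i -
    (F0 q.2 + q.1 q.2) i) / h) ^ 2
  have h0 := continuous_F0
  have h1 : Continuous fun q : (ℝ →ᵇ V) × ℝ => q.1 q.2 := by fun_prop
  have h2 : Continuous fun q : (ℝ →ᵇ V) × ℝ => q.1 (q.2 + h) :=
    h1.comp (continuous_fst.prodMk (continuous_snd.add continuous_const))
  have h3 : Continuous fun q : (ℝ →ᵇ V) × ℝ => F0 (q.2 + h) + q.1 (q.2 + h) :=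
    (h0.comp (continuous_snd.add continuous_const)).add h2
  have h4 : Continuous fun q : (ℝ →ᵇ V) × ℝ => F0 q.2 + q.1 q.2 := (h0.comp continuous_snd).add h1
  apply continuous_finset_sum
  intro i _
  have h5 : Continuous fun q : (ℝ →ᵇ V) × ℝ => (F0 (q.2 + h) + q.1 (q.2 + h)) i :=
    (continuous_apply i).comp h3
  have h6 : Continuous fun q : (ℝ →ᵇ V) × ℝ => (F0 q.2 + q.1 q.2) i := (continuous_apply i).comp h4
  exact ((h5.sub h6).div_const h).pow 2

theorem isOpen_Ej (n j : ℕ) : IsOpen {H : ℝ →ᵇ V | Ej n j H} := by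
  have : {H : ℝ →ᵇ V | Ej n j H} = ⋃ h : {h : ℝ // 0 < h ∧ h < 1 / ((j : ℝ) + 1)},
      {H : ℝ →ᵇ V | 2 * ((n : ℝ) + 1) - 1 / ((j : ℝ) + 1) <
        Dq ((n : ℝ) + 1) h.1 (fun t => F0 t + H t)} := by
    ext H
    simp only [mem_setOf_eq, mem_iUnion, Subtype.exists, Ej]
    constructor
    · rintro ⟨h, h1, h2, h3⟩; exact ⟨h, ⟨h1, h2⟩, h3⟩
    · rintro ⟨h, ⟨h1, h2⟩, h3⟩; exact ⟨h, h1, h2, h3⟩
  rw [this]
  exact isOpen_iUnion fun h => isOpen_lt continuous_const (continuous_Dq _ _)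

theorem Curve.mono {F ρ : ℝ → V} (hC : Curve F ρ) (i : Fin 4) (s t : ℝ) (hst : s ≤ t) :
    0 ≤ F t i - F s i ∧ F t i - F s i ≤ t - s := by
  constructor
  · have := mvt_ge (hC.der i) hst (m := 0) (fun x _ => (hC.pos x i).le)
    linarith
  · have := mvt_ge (f := fun x => x - F x i) (f' := fun x => 1 - ρ x i)
      (fun x => (hasDerivAt_id x).sub (hC.der i x)) hst (m := 0)
      (fun x _ => by have := hC.le_one x i; linarith)
    linarith

theorem Curve.dq {F ρ : ℝ → V} (hC : Curve F ρ) (m : ℝ) :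
    Tendsto (fun h => Dq m h F) (𝓝[>] 0) (𝓝 (∫ s in (-m)..m, ∑ i, ρ s i ^ 2)) := by
  have h1 : ∀ i : Fin 4, Tendsto (fun h : ℝ => ∫ s in (-m)..m, ((F (s + h) i - F s i) / h) ^ 2)
      (𝓝[>] 0) (𝓝 (∫ s in (-m)..m, ρ s i ^ 2)) := by
    intro i
    have := dq_tendsto (f := fun t => F t i) (hC.mono i) m
    have e : (deriv fun t => F t i) = fun s => ρ s i := by
      ext s; exact (hC.der i s).deriv
    rw [e] at this
    exact this
  have h2 := tendsto_finset_sum Finset.univ (fun i _ => h1 i)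
  have hc : ∀ i, Continuous fun s => F s i := fun i => (continuous_apply i).comp hC.continuous
  have hρ : ∀ i, Continuous fun s => ρ s i := fun i => (hC.smooth i).continuous
  unfold Dq
  have e1 : ∫ s in (-m)..m, ∑ i, ρ s i ^ 2 = ∑ i, ∫ s in (-m)..m, ρ s i ^ 2 := by
    rw [intervalIntegral.integral_finset_sum]
    intro i _
    have := hρ i
    exact Continuous.intervalIntegrable (by fun_prop) _ _
  rw [e1]
  refine h2.congr fun h => ?_
  rw [intervalIntegral.integral_finset_sum]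
  intro i _
  have := hc i
  exact Continuous.intervalIntegrable (by fun_prop) _ _

theorem exists_near_Ej {H : ℝ →ᵇ V} (hH : H ∈ SS) (n j : ℕ) {δ : ℝ} (hδ : 0 < δ) :
    ∃ H' ∈ SS, dist H' H ≤ δ ∧ Ej n j H' := by
  obtain ⟨ρ, hC⟩ := hH
  have hj : 0 < 1 / ((j : ℝ) + 1) := by positivity
  obtain ⟨F', ρ', hC', hF', hE⟩ := hC.exists_full (n := (n : ℝ) + 1) (by positivity) hδ
    (ε := 1 / ((j : ℝ) + 1) / 2) (by positivity)
  obtain ⟨H', hH', hd, heq⟩ := mem_SS_near hC' hδ.le hF'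
  refine ⟨H', hH', hd, ?_⟩
  have h1 := hC'.dq ((n : ℝ) + 1)
  have h2 := h1.eventually (lt_mem_nhds (show 2 * ((n : ℝ) + 1) - 1 / ((j : ℝ) + 1) <
    ∫ s in (-((n : ℝ) + 1))..((n : ℝ) + 1), ∑ i, ρ' s i ^ 2 by linarith))
  have h3 : ∀ᶠ h : ℝ in 𝓝[>] 0, h < 1 / ((j : ℝ) + 1) :=
    nhdsWithin_le_nhds (gt_mem_nhds hj)
  obtain ⟨h, ⟨h4, h5⟩, h6⟩ := ((h2.and h3).and self_mem_nhdsWithin).exists
  refine ⟨h, h6, h5, ?_⟩
  rw [heq]
  exact h4

/-- The generic curve. -/
theorem exists_generic : ∃ F : ℝ → V, Continuous F ∧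
    (∀ i s t, s ≤ t → 0 ≤ F t i - F s i) ∧ (∀ s t, ∑ i, (F t i - F s i) = t - s) ∧
    (∀ p h l, 0 < h → 0 < l → Phi F p h l ≠ 0) ∧
    (∀ n j : ℕ, ∃ h : ℝ, 0 < h ∧ h < 1 / ((j : ℝ) + 1) ∧
      2 * ((n : ℝ) + 1) - 1 / ((j : ℝ) + 1) < Dq ((n : ℝ) + 1) h F) := by
  have hcomp : CompleteSpace (closure SS) := isClosed_closure.completeSpace_coe
  have hdense : ∀ (P : (ℝ →ᵇ V) → Prop),
      (∀ H ∈ SS, ∀ δ : ℝ, 0 < δ → ∃ H' ∈ SS, dist H' H ≤ δ ∧ P H') →
      Dense {x : closure SS | P x.1} := by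
    intro P hP x
    rw [Metric.mem_closure_iff]
    intro ε hε
    obtain ⟨H, hH, hd⟩ := Metric.mem_closure_iff.1 x.2 (ε / 2) (by positivity)
    obtain ⟨H', hH', hd', hPH⟩ := hP H hH (ε / 4) (by positivity)
    refine ⟨⟨H', subset_closure hH'⟩, hPH, ?_⟩
    show dist x.1 H' < ε
    have := dist_triangle x.1 H H'
    rw [dist_comm H H'] at this
    linarith
  have hbaire := dense_iInter_of_isOpen (X := closure SS) (ι := ℕ ⊕ (ℕ × ℕ))
    (f := fun q => match q with
      | Sum.inl k => {x : closure SS | Ok k x.1}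
      | Sum.inr (n, j) => {x : closure SS | Ej n j x.1}) ?_ ?_
  · have hne : Nonempty (closure SS) := ⟨⟨0, subset_closure zero_mem_SS⟩⟩
    obtain ⟨x, hx⟩ := hbaire.nonempty
    rw [mem_iInter] at hx
    refine ⟨fun t => F0 t + x.1 t, continuous_F0.add x.1.continuous, ?_, ?_, ?_, ?_⟩
    · -- monotone
      intro i s t hst
      have hcl : IsClosed {H : ℝ →ᵇ V | 0 ≤ (F0 t + H t) i - (F0 s + H s) i} := by
        apply isClosed_le continuous_const
        have h1 : ∀ r : ℝ, Continuous fun H : ℝ →ᵇ V => (F0 r + H r) i := by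
          intro r
          have h2 : Continuous fun H : ℝ →ᵇ V => H r := by fun_prop
          exact (continuous_apply i).comp (continuous_const.add h2)
        exact (h1 t).sub (h1 s)
      have hsub : SS ⊆ {H : ℝ →ᵇ V | 0 ≤ (F0 t + H t) i - (F0 s + H s) i} := by
        rintro H ⟨ρ, hC⟩
        exact (hC.mono i s t hst).1
      exact closure_minimal hsub hcl x.2
    · -- sum
      intro s t
      have hcl : IsClosed {H : ℝ →ᵇ V | ∑ i, ((F0 t + H t) i - (F0 s + H s) i) = t - s} := by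
        refine isClosed_eq ?_ continuous_const
        have h1 : ∀ (r : ℝ) (i : Fin 4), Continuous fun H : ℝ →ᵇ V => (F0 r + H r) i := by
          intro r i
          have h2 : Continuous fun H : ℝ →ᵇ V => H r := by fun_prop
          exact (continuous_apply i).comp (continuous_const.add h2)
        exact continuous_finset_sum _ fun i _ => (h1 t i).sub (h1 s i)
      have hsub : SS ⊆ {H : ℝ →ᵇ V | ∑ i, ((F0 t + H t) i - (F0 s + H s) i) = t - s} := by
        rintro H ⟨ρ, hC⟩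
        have hd : ∀ r, HasDerivAt (fun r => (∑ i, (F0 r + H r) i) - r) 0 r := by
          intro r
          have h1 : HasDerivAt (fun r => ∑ i, (F0 r + H r) i) (∑ i, ρ r i) r :=
            HasDerivAt.fun_sum fun i _ => hC.der i r
          rw [hC.sum r] at h1
          have := h1.sub (hasDerivAt_id r)
          rw [sub_self] at this
          exact this
        have hconst : ∀ a b, a ≤ b → (∑ i, (F0 b + H b) i) - b = (∑ i, (F0 a + H a) i) - a := by
          intro a b hab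
          have := mvt_abs hd hab (m := 0) (fun x _ => by simp)
          rw [zero_mul] at this
          have := abs_nonpos_iff.1 this
          linarith
        show ∑ i, ((F0 t + H t) i - (F0 s + H s) i) = t - s
        rw [Finset.sum_sub_distrib]
        rcases le_total s t with h | h
        · have := hconst s t h
          linarith
        · have := hconst t s h
          linarith
      exact closure_minimal hsub hcl x.2
    · -- separation
      intro p h l hh hl h0
      obtain ⟨k, hk⟩ := exists_nat_gt (max (max (1 / h) (1 / l)) (max (-p) (p + h + l)))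
      have k1 : 1 / h < k := (le_max_left _ _).trans_lt ((le_max_left _ _).trans_lt hk)
      have k2 : 1 / l < k := (le_max_right _ _).trans_lt ((le_max_left _ _).trans_lt hk)
      have k3 : -p < k := (le_max_left _ _).trans_lt ((le_max_right _ _).trans_lt hk)
      have k4 : p + h + l < k := (le_max_right _ _).trans_lt ((le_max_right _ _).trans_lt hk)
      obtain ⟨c, hc, H⟩ : Ok k x.1 := hx (Sum.inl k)
      have hkp : 0 < (k : ℝ) + 1 := by positivity
      have := H p h l (by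
        rw [div_le_iff₀ hkp]
        rw [div_lt_iff₀ hh] at k1
        nlinarith) (by
        rw [div_le_iff₀ hkp]
        rw [div_lt_iff₀ hl] at k2
        nlinarith) (by linarith) k4.le
      rw [h0, norm_zero] at this
      linarith
    · intro n j
      exact hx (Sum.inr (n, j))
  · rintro (k | ⟨n, j⟩)
    · show IsOpen {x : closure SS | Ok k x.1}
      rw [Metric.isOpen_iff]
      intro x hx
      obtain ⟨ε, hε, h⟩ := ok_open hx
      exact ⟨ε, hε, fun y hy => h y.1 hy⟩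
    · exact (isOpen_Ej n j).preimage continuous_subtype_val
  · rintro (k | ⟨n, j⟩)
    · apply hdense
      intro H hH δ hδ
      exact ⟨H, hH, by rw [dist_self]; exact hδ.le, ok_of_mem hH k⟩
    · apply hdense
      intro H hH δ hδ
      exact exists_near_Ej hH n j hδ

end Pool.Agent.N466.Bal
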