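import Mathlib

/-!
# A direction with a small bad set

For functions `f g h` of two variables on a square, bounded away from zero together and Lipschitz in
the second variable, the set of all `a` for which some `b` satisfies `g ≈ ξ f`, `h ≈ ζ f` has small
measure for a suitable choice of small positive numbers `ξ`, `ζ` in a grid.
-/

set_option autoImplicit false

namespace Pool.Agent.N466.Bal

open MeasureTheory Set

/-- The bad set of a direction. -/
def Bad (N κ ξ ζ : ℝ) (f g h : ℝ → ℝ → ℝ) : Set ℝ :=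
  {a | a ∈ Icc (-N) N ∧ ∃ b ∈ Icc (-N) N, |g a b - ξ * f a b| ≤ κ ∧ |h a b - ζ * f a b| ≤ κ}

theorem isCompact_bad {N κ ξ ζ : ℝ} {f g h : ℝ → ℝ → ℝ} (hf : Continuous (Function.uncurry f))
    (hg : Continuous (Function.uncurry g)) (hh : Continuous (Function.uncurry h)) :
    IsCompact (Bad N κ ξ ζ f g h) := by
  have hS : IsCompact ((Icc (-N) N ×ˢ Icc (-N) N) ∩
      {p : ℝ × ℝ | |g p.1 p.2 - ξ * f p.1 p.2| ≤ κ ∧ |h p.1 p.2 - ζ * f p.1 p.2| ≤ κ}) := by
    apply (isCompact_Icc.prod isCompact_Icc).inter_right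
    have hf' : Continuous fun p : ℝ × ℝ => f p.1 p.2 := hf
    have hg' : Continuous fun p : ℝ × ℝ => g p.1 p.2 := hg
    have hh' : Continuous fun p : ℝ × ℝ => h p.1 p.2 := hh
    have h1 : IsClosed {p : ℝ × ℝ | |g p.1 p.2 - ξ * f p.1 p.2| ≤ κ} :=
      isClosed_le ((hg'.sub (hf'.const_mul ξ)).abs) continuous_const
    have h2 : IsClosed {p : ℝ × ℝ | |h p.1 p.2 - ζ * f p.1 p.2| ≤ κ} :=
      isClosed_le ((hh'.sub (hf'.const_mul ζ)).abs) continuous_const
    exact h1.inter h2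
  convert hS.image continuous_fst using 1
  ext a
  constructor
  · rintro ⟨ha, b, hb, h1, h2⟩
    exact ⟨(a, b), ⟨⟨ha, hb⟩, h1, h2⟩, rfl⟩
  · rintro ⟨⟨a', b⟩, ⟨⟨ha, hb⟩, h1, h2⟩, rfl⟩
    exact ⟨ha, b, hb, h1, h2⟩

/-- Two different directions of the grid need separated values of `b`. -/
theorem separated {κ ξ ζ ξ' ζ' c L r τ : ℝ} {f g h f' g' h' : ℝ}
    (hc : 0 < c) (hL : 0 ≤ L) (hr : 0 < r) (hr2 : r ≤ 1 / 2) (hκ : κ = r * c / 8)
    (hτ : τ = r * c / (8 * (L + 1)))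
    (hξ0 : 0 < ξ) (hζ0 : 0 < ζ) (hξ0' : 0 < ξ') (hζ0' : 0 < ζ')
    (hξ : ξ ≤ 1 / 2) (hζ : ζ ≤ 1 / 2) (hξ' : ξ' ≤ 1 / 2) (hζ' : ζ' ≤ 1 / 2)
    (low : c ≤ |f| ∨ c ≤ |g| ∨ c ≤ |h|)
    (h1 : |g - ξ * f| ≤ κ) (h2 : |h - ζ * f| ≤ κ) (h3 : |g' - ξ' * f'| ≤ κ) (h4 : |h' - ζ' * f'| ≤ κ)
    (lf : |f - f'| ≤ L * τ) (lg : |g - g'| ≤ L * τ) (lh : |h - h'| ≤ L * τ)
    (hsep : r ≤ |ξ - ξ'| ∨ r ≤ |ζ - ζ'|) : False := by
  have hκc : κ ≤ c / 2 := by rw [hκ]; nlinarith
  have hκ0 : 0 < κ := by rw [hκ]; positivity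
  have hLτ : L * τ ≤ r * c / 8 := by
    rw [hτ, mul_div_assoc', div_le_div_iff₀ (by positivity) (by norm_num)]
    nlinarith [mul_pos hr hc]
  have hf : c ≤ |f| := by
    rcases low with h | hg | hh
    · exact h
    · have : |g| ≤ κ + ξ * |f| := by
        calc |g| = |(g - ξ * f) + ξ * f| := by ring_nf
          _ ≤ |g - ξ * f| + |ξ * f| := abs_add_le _ _
          _ ≤ κ + ξ * |f| := by rw [abs_mul, abs_of_pos hξ0]; linarith
      nlinarith [abs_nonneg f]
    · have : |h| ≤ κ + ζ * |f| := by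
        calc |h| = |(h - ζ * f) + ζ * f| := by ring_nf
          _ ≤ |h - ζ * f| + |ζ * f| := abs_add_le _ _
          _ ≤ κ + ζ * |f| := by rw [abs_mul, abs_of_pos hζ0]; linarith
      nlinarith [abs_nonneg f]
  have key : ∀ x x' y y' : ℝ, 0 < x' → x' ≤ 1 / 2 → |y - x * f| ≤ κ → |y' - x' * f'| ≤ κ →
      |y - y'| ≤ L * τ → r ≤ |x - x'| → False := by
    intro x x' y y' hx0 hx k1 k2 k3 k4
    have e : (x - x') * f = (y - y') - (y - x * f) + (y' - x' * f') - x' * (f - f') := by ring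
    have h5 : |(x - x') * f| ≤ |y - y'| + |y - x * f| + |y' - x' * f'| + x' * |f - f'| := by
      rw [e]
      calc |(y - y') - (y - x * f) + (y' - x' * f') - x' * (f - f')|
          ≤ |(y - y') - (y - x * f) + (y' - x' * f')| + |x' * (f - f')| := abs_sub _ _
        _ ≤ |(y - y') - (y - x * f)| + |(y' - x' * f')| + |x' * (f - f')| := by
            linarith [abs_add_le ((y - y') - (y - x * f)) (y' - x' * f')]
        _ ≤ |y - y'| + |y - x * f| + |(y' - x' * f')| + |x' * (f - f')| := by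
            linarith [abs_sub (y - y') (y - x * f)]
        _ = _ := by rw [abs_mul x', abs_of_pos hx0]
    rw [abs_mul] at h5
    have h6 : r * c ≤ |x - x'| * |f| := mul_le_mul k4 hf hc.le (abs_nonneg _)
    have h7 : x' * |f - f'| ≤ 1 / 2 * (L * τ) := by
      apply mul_le_mul hx lf (abs_nonneg _) (by norm_num)
    have : 0 < r * c := mul_pos hr hc
    rw [hκ] at k1 k2
    linarith
  rcases hsep with hs | hs
  · exact key ξ ξ' g g' hξ0' hξ' h1 h3 lg hs
  · exact key ζ ζ' h h' hζ0' hζ' h2 h4 lh hs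

theorem exists_direction {N c L : ℝ} (hN : 0 < N) (hc : 0 < c) (hL : 0 ≤ L) {f g h : ℝ → ℝ → ℝ}
    (hf : Continuous (Function.uncurry f)) (hg : Continuous (Function.uncurry g))
    (hh : Continuous (Function.uncurry h))
    (low : ∀ a ∈ Icc (-N) N, ∀ b ∈ Icc (-N) N, c ≤ |f a b| ∨ c ≤ |g a b| ∨ c ≤ |h a b|)
    (lf : ∀ a ∈ Icc (-N) N, ∀ b ∈ Icc (-N) N, ∀ b' ∈ Icc (-N) N, |f a b - f a b'| ≤ L * |b - b'|)
    (lg : ∀ a ∈ Icc (-N) N, ∀ b ∈ Icc (-N) N, ∀ b' ∈ Icc (-N) N, |g a b - g a b'| ≤ L * |b - b'|)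
    (lh : ∀ a ∈ Icc (-N) N, ∀ b ∈ Icc (-N) N, ∀ b' ∈ Icc (-N) N, |h a b - h a b'| ≤ L * |b - b'|)
    {U η : ℝ} (hU : 0 < U) (hη : 0 < η) :
    ∃ ξ ζ κ : ℝ, 0 < ξ ∧ ξ < U ∧ 0 < ζ ∧ ζ < U ∧ 0 < κ ∧
      volume (Bad N κ ξ ζ f g h) ≤ ENNReal.ofReal η := by
  classical
  by_contra hcon
  push Not at hcon
  obtain ⟨V, hV⟩ : ∃ V, V = min U (1 / 2) := ⟨_, rfl⟩
  have hV0 : 0 < V := by rw [hV]; positivity
  have hVU : V ≤ U := by rw [hV]; exact min_le_left _ _
  have hV2 : V ≤ 1 / 2 := by rw [hV]; exact min_le_right _ _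
  obtain ⟨B, hB⟩ : ∃ B, B = 2 * N * (16 * N * (L + 1) / (V * c) + 2) := ⟨_, rfl⟩
  have hB0 : 0 < B := by rw [hB]; positivity
  obtain ⟨M, hM⟩ := exists_nat_gt (2 * B / η)
  have hMr : (0 : ℝ) < M := lt_of_le_of_lt (by positivity) hM
  have hM1 : 1 ≤ M := by exact_mod_cast hMr
  obtain ⟨r, hr⟩ : ∃ r, r = V / (M + 1) := ⟨_, rfl⟩
  have hr0 : 0 < r := by rw [hr]; positivity
  have hrM : r * (M + 1) = V := by rw [hr]; field_simp
  have hr2 : r ≤ 1 / 2 := by nlinarith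
  obtain ⟨κ, hκ⟩ : ∃ κ, κ = r * c / 8 := ⟨_, rfl⟩
  obtain ⟨τ, hτ⟩ : ∃ τ, τ = r * c / (8 * (L + 1)) := ⟨_, rfl⟩
  have hκ0 : 0 < κ := by rw [hκ]; positivity
  have hτ0 : 0 < τ := by rw [hτ]; positivity
  obtain ⟨x, hx⟩ : ∃ x : Fin M → ℝ, x = fun (p : Fin M) => r * (((p : ℕ) : ℝ) + 1) := ⟨_, rfl⟩
  have hx0 : ∀ p, 0 < x p := by intro p; rw [hx]; positivity
  have hxV : ∀ p, x p < V := by
    intro p
    have : ((p : ℕ) : ℝ) + 1 ≤ M := by exact_mod_cast p.2
    rw [hx, ← hrM]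
    show r * ((p : ℕ) + 1) < r * (M + 1)
    nlinarith
  have hx2 : ∀ p, x p ≤ 1 / 2 := fun p => (hxV p).le.trans hV2
  have hxs : ∀ p q, p ≠ q → r ≤ |x p - x q| := by
    intro p q hpq
    have h1 : (1 : ℝ) ≤ |((p : ℕ) : ℝ) - ((q : ℕ) : ℝ)| := by
      have : (1 : ℤ) ≤ |((p : ℕ) : ℤ) - ((q : ℕ) : ℤ)| := by
        apply Int.one_le_abs
        intro h0
        apply hpq
        ext
        omega
      exact_mod_cast this
    have h2 : x p - x q = r * (((p : ℕ) : ℝ) - ((q : ℕ) : ℝ)) := by rw [hx]; ring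
    rw [h2, abs_mul, abs_of_pos hr0]
    nlinarith
  obtain ⟨Z, hZ⟩ : ∃ Z : Fin M × Fin M → Set ℝ, Z = fun p => Bad N κ (x p.1) (x p.2) f g h := ⟨_, rfl⟩
  have hZm : ∀ p, MeasurableSet (Z p) := by
    intro p; rw [hZ]; exact (isCompact_bad hf hg hh).measurableSet
  -- counting
  have count : ∀ a, ∑ p : Fin M × Fin M, (Z p).indicator (fun _ => (1 : ENNReal)) a ≤
      (Icc (-N) N).indicator (fun _ => ENNReal.ofReal (2 * N / τ + 2)) a := by
    intro a
    by_cases ha : a ∈ Icc (-N) N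
    · rw [indicator_of_mem ha]
      have h1 : ∑ p : Fin M × Fin M, (Z p).indicator (fun _ => (1 : ENNReal)) a =
          ((Finset.univ.filter fun p => a ∈ Z p).card : ENNReal) := by
        rw [Finset.card_filter]
        push_cast
        apply Finset.sum_congr rfl
        intro p _
        by_cases hp : a ∈ Z p <;> simp [hp]
      rw [h1]
      obtain ⟨S, hS⟩ : ∃ S, S = Finset.univ.filter fun p => a ∈ Z p := ⟨_, rfl⟩
      rw [← hS]
      have hch : ∀ p : Fin M × Fin M, ∃ b, p ∈ S → b ∈ Icc (-N) N ∧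
          |g a b - x p.1 * f a b| ≤ κ ∧ |h a b - x p.2 * f a b| ≤ κ := by
        intro p
        by_cases hp : p ∈ S
        · rw [hS, Finset.mem_filter, hZ] at hp
          obtain ⟨-, -, b, hb, h1, h2⟩ := hp
          exact ⟨b, fun _ => ⟨hb, h1, h2⟩⟩
        · exact ⟨0, fun h => absurd h hp⟩
      choose b hb using hch
      have hinj : Set.InjOn (fun p => ⌊b p / τ⌋) S := by
        intro p hp q hq hpq
        by_contra hne
        have hbd : |b p - b q| ≤ τ := by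
          have := Int.abs_sub_lt_one_of_floor_eq_floor hpq
          rw [← sub_div, abs_div, abs_of_pos hτ0, div_lt_one hτ0] at this
          exact this.le
        obtain ⟨b1, b2, b3⟩ := hb p hp
        obtain ⟨c1, c2, c3⟩ := hb q hq
        have hsep : r ≤ |x p.1 - x q.1| ∨ r ≤ |x p.2 - x q.2| := by
          by_cases h1 : p.1 = q.1
          · right
            apply hxs
            intro h2
            exact hne (Prod.ext h1 h2)
          · exact Or.inl (hxs _ _ h1)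
        exact separated hc hL hr0 hr2 hκ hτ (hx0 _) (hx0 _) (hx0 _) (hx0 _) (hx2 _) (hx2 _) (hx2 _)
          (hx2 _) (low a ha _ b1) b2 b3 c2 c3
          ((lf a ha _ b1 _ c1).trans (mul_le_mul_of_nonneg_left hbd hL))
          ((lg a ha _ b1 _ c1).trans (mul_le_mul_of_nonneg_left hbd hL))
          ((lh a ha _ b1 _ c1).trans (mul_le_mul_of_nonneg_left hbd hL)) hsep
      have hmaps : ∀ p ∈ S, ⌊b p / τ⌋ ∈ Finset.Icc ⌊-N / τ⌋ ⌊N / τ⌋ := by
        intro p hp
        obtain ⟨⟨b1, b2⟩, -⟩ := hb p hp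
        rw [Finset.mem_Icc]
        exact ⟨Int.floor_le_floor (div_le_div_of_nonneg_right b1 hτ0.le),
          Int.floor_le_floor (div_le_div_of_nonneg_right b2 hτ0.le)⟩
      have hcard := Finset.card_le_card_of_injOn _ hmaps hinj
      rw [Int.card_Icc] at hcard
      have h2 : ((⌊N / τ⌋ + 1 - ⌊-N / τ⌋).toNat : ℝ) ≤ 2 * N / τ + 2 := by
        have h3 : (0 : ℤ) ≤ ⌊N / τ⌋ + 1 - ⌊-N / τ⌋ := by
          have : ⌊-N / τ⌋ ≤ ⌊N / τ⌋ := Int.floor_le_floor
            (div_le_div_of_nonneg_right (by linarith) hτ0.le)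
          linarith
        have h4 : ((⌊N / τ⌋ + 1 - ⌊-N / τ⌋).toNat : ℝ) = ((⌊N / τ⌋ + 1 - ⌊-N / τ⌋ : ℤ) : ℝ) := by
          have := Int.toNat_of_nonneg h3
          exact_mod_cast congrArg (Int.cast : ℤ → ℝ) this
        rw [h4]
        push_cast
        have h5 := Int.floor_le (N / τ)
        have h6 := Int.lt_floor_add_one (-N / τ)
        have h7 : -N / τ = -(N / τ) := by ring
        rw [h7] at h6 ⊢
        have h8 : 2 * N / τ = N / τ + N / τ := by ring
        rw [h8]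
        linarith
      calc (S.card : ENNReal) ≤ ((⌊N / τ⌋ + 1 - ⌊-N / τ⌋).toNat : ENNReal) := by exact_mod_cast hcard
        _ = ENNReal.ofReal ((⌊N / τ⌋ + 1 - ⌊-N / τ⌋).toNat : ℝ) := by
            rw [ENNReal.ofReal_natCast]
        _ ≤ _ := ENNReal.ofReal_le_ofReal h2
    · rw [indicator_of_notMem ha]
      have : ∀ p, a ∉ Z p := by
        intro p hp
        rw [hZ] at hp
        exact ha hp.1
      simp [this]
  have total : ∑ p : Fin M × Fin M, volume (Z p) ≤ ENNReal.ofReal (2 * N / τ + 2) *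
      ENNReal.ofReal (2 * N) := by
    calc ∑ p : Fin M × Fin M, volume (Z p)
        = ∑ p : Fin M × Fin M, ∫⁻ a, (Z p).indicator (fun _ => (1 : ENNReal)) a := by
          apply Finset.sum_congr rfl
          intro p _
          rw [lintegral_indicator (hZm p), setLIntegral_one]
      _ = ∫⁻ a, ∑ p : Fin M × Fin M, (Z p).indicator (fun _ => (1 : ENNReal)) a := by
          rw [lintegral_finset_sum]
          intro p _
          exact measurable_const.indicator (hZm p)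
      _ ≤ ∫⁻ a, (Icc (-N) N).indicator (fun _ => ENNReal.ofReal (2 * N / τ + 2)) a :=
          lintegral_mono count
      _ = ENNReal.ofReal (2 * N / τ + 2) * ENNReal.ofReal (2 * N) := by
          rw [lintegral_indicator measurableSet_Icc, setLIntegral_const, Real.volume_Icc]
          congr 2
          ring
  have lower : (M * M : ENNReal) * ENNReal.ofReal η ≤ ∑ p : Fin M × Fin M, volume (Z p) := by
    have : ∀ p ∈ (Finset.univ : Finset (Fin M × Fin M)), ENNReal.ofReal η ≤ volume (Z p) := by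
      intro p _
      rw [hZ]
      exact (hcon (x p.1) (x p.2) κ (hx0 _) ((hxV _).trans_le hVU) (hx0 _) ((hxV _).trans_le hVU)
        hκ0).le
    have h1 := Finset.card_nsmul_le_sum _ _ _ this
    rw [Finset.card_univ, Fintype.card_prod, Fintype.card_fin, nsmul_eq_mul] at h1
    push_cast at h1
    exact h1
  have h1 := lower.trans total
  rw [← ENNReal.ofReal_mul (by positivity)] at h1
  have h2 : (M * M : ENNReal) * ENNReal.ofReal η = ENNReal.ofReal (M * M * η) := by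
    rw [ENNReal.ofReal_mul (by positivity), ENNReal.ofReal_mul (by positivity),
      ENNReal.ofReal_natCast]
  rw [h2, ENNReal.ofReal_le_ofReal_iff (by positivity)] at h1
  have h3 : (2 * N / τ + 2) * (2 * N) ≤ (M + 1) * B := by
    have h4 : 2 * N / τ = 16 * N * (L + 1) / (V * c) * (M + 1) := by
      rw [hτ, hr]
      field_simp
      ring
    rw [h4, hB]
    have : 0 ≤ 16 * N * (L + 1) / (V * c) := by positivity
    have hN' : 0 < 2 * N := by positivity
    have h5 : (2 : ℝ) ≤ 2 * (M + 1) := by linarith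
    nlinarith
  have h4 : 2 * B < M * η := by
    rwa [div_lt_iff₀ hη] at hM
  have h5 : (1 : ℝ) ≤ M := by exact_mod_cast hM1
  have h6 : (M + 1 : ℝ) * B ≤ 2 * M * B := by nlinarith
  have h7 : (M : ℝ) * M * η ≤ 2 * M * B := by linarith
  have h8 : (M : ℝ) * (M * η) ≤ M * (2 * B) := by linarith
  have h9 := le_of_mul_le_mul_left h8 hMr
  linarith

end Pool.Agent.N466.Bal
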