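import Pool.Agent.N466.Bal.Curve
import Pool.Agent.N466.Bal.Grid

/-!
# Nondegeneracy of a perturbed curve on a compact interval
-/

set_option autoImplicit false

namespace Pool.Agent.N466.Bal

open MeasureTheory Set
open scoped ContDiff

/-- The direction of the perturbation. -/
def dir (e : Equiv.Perm (Fin 4)) (ξ ζ : ℝ) : V := fun m => (![1, ξ, ζ, -1 - ξ - ζ] : V) (e.symm m)

theorem dir_0 (e : Equiv.Perm (Fin 4)) (ξ ζ : ℝ) : dir e ξ ζ (e 0) = 1 := by simp [dir]
theorem dir_1 (e : Equiv.Perm (Fin 4)) (ξ ζ : ℝ) : dir e ξ ζ (e 1) = ξ := by simp [dir]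
theorem dir_2 (e : Equiv.Perm (Fin 4)) (ξ ζ : ℝ) : dir e ξ ζ (e 2) = ζ := by simp [dir]
theorem dir_3 (e : Equiv.Perm (Fin 4)) (ξ ζ : ℝ) : dir e ξ ζ (e 3) = -1 - ξ - ζ := by simp [dir]

theorem Phi_add (F : ℝ → V) (A : ℝ → ℝ) (u : V) (p h l : ℝ) :
    Phi (fun s => F s + A s • u) p h l =
      Phi F p h l + (A (p + h + l) - A (p + h) - A (p + l) + A p) • u := by
  ext i
  simp only [Phi, Pi.add_apply, Pi.sub_apply, Pi.smul_apply, smul_eq_mul]
  ring

theorem Curve.local_nd {F ρ : ℝ → V} (hC : Curve F ρ) (e : Equiv.Perm (Fin 4)) {N κ ξ ζ : ℝ}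
    (hκ : 0 < κ) (hξ0 : 0 < ξ) (hξ1 : ξ ≤ 1) (hζ0 : 0 < ζ) (hζ1 : ζ ≤ 1) :
    ∃ ε : ℝ, 0 < ε ∧ ∃ c : ℝ, 0 < c ∧ ∀ A : ℝ → ℝ,
      (∀ s ∈ Bad N κ ξ ζ (W (Dr ρ (e 0))) (W (Dr ρ (e 1))) (W (Dr ρ (e 2))), A s = 0) →
      (∀ s, |A s| ≤ ε) → ∀ p h l, 0 ≤ h → 0 ≤ l → -N ≤ p → p + h + l ≤ N →
        c * h * l ≤ ‖Phi (fun s => F s + A s • dir e ξ ζ) p h l‖ := by
  obtain ⟨c, hc, H⟩ := hC.nd N
  obtain ⟨L, hL0, hL⟩ := hC.exists_lip N
  obtain ⟨l₀, hl₀⟩ : ∃ l₀, l₀ = κ / (16 * (L + 1)) := ⟨_, rfl⟩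
  have hl₀0 : 0 < l₀ := by rw [hl₀]; positivity
  have hLl : 4 * L * l₀ ≤ κ / 4 := by
    have : l₀ * (16 * (L + 1)) = κ := by rw [hl₀]; field_simp
    nlinarith
  refine ⟨c * l₀ ^ 2 / 24, by positivity, min (κ / 4) (c / 2), by positivity, ?_⟩
  intro A hA hAe
  suffices K : ∀ p h l, 0 ≤ h → h ≤ l → -N ≤ p → p + h + l ≤ N →
      min (κ / 4) (c / 2) * h * l ≤ ‖Phi (fun s => F s + A s • dir e ξ ζ) p h l‖ by
    intro p h l hh hl hp hq
    rcases le_total h l with hhl | hhl
    · exact K p h l hh hhl hp hq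
    · have := K p l h hl hhl hp (by linarith)
      rw [Phi_comm] at this
      have e2 : min (κ / 4) (c / 2) * l * h = min (κ / 4) (c / 2) * h * l := by ring
      linarith
  intro p h l hh hhl hp hq
  have hl : 0 ≤ l := hh.trans hhl
  obtain ⟨Q, hQ⟩ : ∃ Q, Q = Phi (fun s => F s + A s • dir e ξ ζ) p h l := ⟨_, rfl⟩
  rw [← hQ]
  have hhl0 : 0 ≤ h * l := mul_nonneg hh hl
  have hm1 : min (κ / 4) (c / 2) * h * l ≤ κ / 4 * (h * l) := by
    rw [mul_assoc]
    exact mul_le_mul_of_nonneg_right (min_le_left _ _) hhl0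
  have hm2 : min (κ / 4) (c / 2) * h * l ≤ c / 2 * (h * l) := by
    rw [mul_assoc]
    exact mul_le_mul_of_nonneg_right (min_le_right _ _) hhl0
  obtain ⟨d, hd⟩ : ∃ d, d = A (p + h + l) - A (p + h) - A (p + l) + A p := ⟨_, rfl⟩
  have hQd : Q = Phi F p h l + d • dir e ξ ζ := by rw [hQ, Phi_add, hd]
  have hc0 : Q (e 0) = Phi F p h l (e 0) + d := by
    rw [hQd]; simp [dir_0]
  have hc1 : Q (e 1) = Phi F p h l (e 1) + d * ξ := by
    rw [hQd]; simp [dir_1]
  have hc2 : Q (e 2) = Phi F p h l (e 2) + d * ζ := by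
    rw [hQd]; simp [dir_2]
  have hH := H p h l hh hl hp hq
  by_cases hcase : h ≤ l₀
  · -- the short case
    by_cases hs : |Phi F p h l (e 1) - ξ * Phi F p h l (e 0)| ≤ κ / 2 * (h * l) ∧
        |Phi F p h l (e 2) - ζ * Phi F p h l (e 0)| ≤ κ / 2 * (h * l)
    · by_cases hh0 : h = 0
      · rw [hh0]
        simp
      have hhp : 0 < h := lt_of_le_of_ne hh (Ne.symm hh0)
      have hlp : 0 < l := hhp.trans_le hhl
      have hhlp : 0 < h * l := mul_pos hhp hlp
      have hW : ∀ (x : ℝ) (j : Fin 4), 0 < x → x ≤ 1 →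
          |Phi F p h l (e j) - x * Phi F p h l (e 0)| ≤ κ / 2 * (h * l) →
          |W (Dr ρ (e j)) p (p + l) - x * W (Dr ρ (e 0)) p (p + l)| ≤ κ ∧
          |W (Dr ρ (e j)) (p + h) (p + h + l) - x * W (Dr ρ (e 0)) (p + h) (p + h + l)| ≤ κ := by
        intro x j hx0 hx1 hx
        have s1 := second_diff (hC.continuous_Dr (e j)) (hC.hasDerivAt_rho (e j)) (hC.der (e j))
          (hL (e j)) hL0 (p := p) hh hl hp hq
        have s2 := second_diff (hC.continuous_Dr (e 0)) (hC.hasDerivAt_rho (e 0)) (hC.der (e 0))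
          (hL (e 0)) hL0 (p := p) hh hl hp hq
        have t1 : Phi F p h l (e j) =
          F (p + h + l) (e j) - F (p + h) (e j) - F (p + l) (e j) + F p (e j) := rfl
        have t2 : Phi F p h l (e 0) =
          F (p + h + l) (e 0) - F (p + h) (e 0) - F (p + l) (e 0) + F p (e 0) := rfl
        rw [← t1] at s1
        rw [← t2] at s2
        obtain ⟨a, ha⟩ : ∃ a, a = Phi F p h l (e j) := ⟨_, rfl⟩
        obtain ⟨b, hb⟩ : ∃ b, b = Phi F p h l (e 0) := ⟨_, rfl⟩
        obtain ⟨v, hv⟩ : ∃ v, v = W (Dr ρ (e j)) p (p + l) := ⟨_, rfl⟩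
        obtain ⟨w, hw⟩ : ∃ w, w = W (Dr ρ (e 0)) p (p + l) := ⟨_, rfl⟩
        rw [← ha, ← hb] at hx
        rw [← ha, ← hv] at s1
        rw [← hb, ← hw] at s2
        have k1 : |h * l * (v - x * w)| ≤ (κ / 2 + 4 * L * h) * (h * l) := by
          have e1 : h * l * (v - x * w) = (a - x * b) - (a - h * l * v) + x * (b - h * l * w) := by
            ring
          rw [e1]
          calc |(a - x * b) - (a - h * l * v) + x * (b - h * l * w)|
              ≤ |(a - x * b) - (a - h * l * v)| + |x * (b - h * l * w)| := abs_add_le _ _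
            _ ≤ |a - x * b| + |a - h * l * v| + |x * (b - h * l * w)| := by
                linarith [abs_sub (a - x * b) (a - h * l * v)]
            _ = |a - x * b| + |a - h * l * v| + x * |b - h * l * w| := by
                rw [abs_mul x, abs_of_pos hx0]
            _ ≤ κ / 2 * (h * l) + 2 * L * h * (h * l) + 1 * (2 * L * h * (h * l)) := by
                apply add_le_add (add_le_add hx s1)
                exact mul_le_mul hx1 s2 (abs_nonneg _) zero_le_one
            _ = _ := by ring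
        rw [abs_mul, abs_of_pos hhlp, mul_comm] at k1
        have k2 := le_of_mul_le_mul_right k1 hhlp
        have k3 : |v - x * w| ≤ 3 / 4 * κ := by
          have : 4 * L * h ≤ 4 * L * l₀ := mul_le_mul_of_nonneg_left hcase (by positivity)
          linarith
        refine ⟨?_, ?_⟩
        · rw [← hv, ← hw]; linarith
        · have q1 := W_lip (hC.continuous_Dr (e j)) (hL (e j)) hL0 (a := p + h) (b := p + h + l)
            (a' := p) (b' := p + l) ⟨by linarith, by linarith⟩ ⟨by linarith, by linarith⟩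
            ⟨by linarith, by linarith⟩ ⟨by linarith, by linarith⟩
          have q2 := W_lip (hC.continuous_Dr (e 0)) (hL (e 0)) hL0 (a := p + h) (b := p + h + l)
            (a' := p) (b' := p + l) ⟨by linarith, by linarith⟩ ⟨by linarith, by linarith⟩
            ⟨by linarith, by linarith⟩ ⟨by linarith, by linarith⟩
          have r1 : p + h - p = h := by ring
          have r2 : p + h + l - (p + l) = h := by ring
          rw [r1, r2, abs_of_nonneg hh, ← hv] at q1
          rw [r1, r2, abs_of_nonneg hh, ← hw] at q2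
          obtain ⟨v', hv'⟩ : ∃ v', v' = W (Dr ρ (e j)) (p + h) (p + h + l) := ⟨_, rfl⟩
          obtain ⟨w', hw'⟩ : ∃ w', w' = W (Dr ρ (e 0)) (p + h) (p + h + l) := ⟨_, rfl⟩
          rw [← hv'] at q1 ⊢
          rw [← hw'] at q2 ⊢
          have e1 : v' - x * w' = (v - x * w) + (v' - v) - x * (w' - w) := by ring
          have k4 : |v' - x * w'| ≤ |v - x * w| + |v' - v| + x * |w' - w| := by
            rw [e1]
            calc |(v - x * w) + (v' - v) - x * (w' - w)|
                ≤ |(v - x * w) + (v' - v)| + |x * (w' - w)| := abs_sub _ _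
              _ ≤ |v - x * w| + |v' - v| + |x * (w' - w)| := by
                  linarith [abs_add_le (v - x * w) (v' - v)]
              _ = _ := by rw [abs_mul x, abs_of_pos hx0]
          have k5 : x * |w' - w| ≤ 1 * (L * (h + h)) := mul_le_mul hx1 q2 (abs_nonneg _) zero_le_one
          have k6 : 4 * L * h ≤ 4 * L * l₀ := mul_le_mul_of_nonneg_left hcase (by positivity)
          linarith
      have w1 := hW ξ 1 hξ0 hξ1 hs.1
      have w2 := hW ζ 2 hζ0 hζ1 hs.2
      have z1 : A p = 0 := hA _ ⟨⟨by linarith, by linarith⟩, p + l, ⟨by linarith, by linarith⟩,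
        w1.1, w2.1⟩
      have z2 : A (p + l) = 0 := by
        refine hA _ ⟨⟨by linarith, by linarith⟩, p, ⟨by linarith, by linarith⟩, ?_, ?_⟩
        · rw [W_symm _ (p + l) p, W_symm _ (p + l) p]; exact w1.1
        · rw [W_symm _ (p + l) p, W_symm _ (p + l) p]; exact w2.1
      have z3 : A (p + h) = 0 := hA _ ⟨⟨by linarith, by linarith⟩, p + h + l,
        ⟨by linarith, by linarith⟩, w1.2, w2.2⟩
      have z4 : A (p + h + l) = 0 := by
        refine hA _ ⟨⟨by linarith, by linarith⟩, p + h, ⟨by linarith, by linarith⟩, ?_, ?_⟩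
        · rw [W_symm _ (p + h + l) (p + h), W_symm _ (p + h + l) (p + h)]; exact w1.2
        · rw [W_symm _ (p + h + l) (p + h), W_symm _ (p + h + l) (p + h)]; exact w2.2
      have hd0 : d = 0 := by rw [hd, z1, z2, z3, z4]; ring
      have hQ2 : Q = Phi F p h l := by rw [hQd, hd0, zero_smul, add_zero]
      rw [hQ2]
      nlinarith
    · have hn : ∀ (x : ℝ) (j : Fin 4), 0 < x → x ≤ 1 →
          Q (e j) - x * Q (e 0) = Phi F p h l (e j) - x * Phi F p h l (e 0) →
          ¬ (|Phi F p h l (e j) - x * Phi F p h l (e 0)| ≤ κ / 2 * (h * l)) →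
          min (κ / 4) (c / 2) * h * l ≤ ‖Q‖ := by
        intro x j hx0 hx1 heq hx
        push Not at hx
        rw [← heq] at hx
        have k1 : |Q (e j)| ≤ ‖Q‖ := norm_le_pi_norm Q (e j)
        have k2 : |Q (e 0)| ≤ ‖Q‖ := norm_le_pi_norm Q (e 0)
        have k3 : |Q (e j) - x * Q (e 0)| ≤ |Q (e j)| + x * |Q (e 0)| := by
          have := abs_sub (Q (e j)) (x * Q (e 0))
          rwa [abs_mul x, abs_of_pos hx0] at this
        have k4 : x * |Q (e 0)| ≤ 1 * ‖Q‖ := mul_le_mul hx1 k2 (abs_nonneg _) zero_le_one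
        linarith
      rw [not_and_or] at hs
      rcases hs with hs | hs
      · exact hn ξ 1 hξ0 hξ1 (by rw [hc0, hc1]; ring) hs
      · exact hn ζ 2 hζ0 hζ1 (by rw [hc0, hc2]; ring) hs
  · -- the long case
    push Not at hcase
    have hu : ‖dir e ξ ζ‖ ≤ 3 := by
      rw [pi_norm_le_iff_of_nonneg (by norm_num)]
      intro i
      obtain ⟨j, rfl⟩ := e.surjective i
      rw [Real.norm_eq_abs, abs_le]
      fin_cases j
      · show -3 ≤ dir e ξ ζ (e 0) ∧ dir e ξ ζ (e 0) ≤ 3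
        rw [dir_0]; constructor <;> norm_num
      · show -3 ≤ dir e ξ ζ (e 1) ∧ dir e ξ ζ (e 1) ≤ 3
        rw [dir_1]; constructor <;> linarith
      · show -3 ≤ dir e ξ ζ (e 2) ∧ dir e ξ ζ (e 2) ≤ 3
        rw [dir_2]; constructor <;> linarith
      · show -3 ≤ dir e ξ ζ (e 3) ∧ dir e ξ ζ (e 3) ≤ 3
        rw [dir_3]; constructor <;> linarith
    have hd4 : |d| ≤ 4 * (c * l₀ ^ 2 / 24) := by
      have a1 := abs_le.1 (hAe (p + h + l))
      have a2 := abs_le.1 (hAe (p + h))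
      have a3 := abs_le.1 (hAe (p + l))
      have a4 := abs_le.1 (hAe p)
      rw [hd, abs_le]
      constructor <;> linarith
    have h1 : ‖Phi F p h l‖ ≤ ‖Q‖ + ‖d • dir e ξ ζ‖ := by
      have : Phi F p h l = Q - d • dir e ξ ζ := by rw [hQd]; simp
      rw [this]
      exact norm_sub_le _ _
    have h2 : ‖d • dir e ξ ζ‖ ≤ c * l₀ ^ 2 / 2 := by
      rw [norm_smul, Real.norm_eq_abs]
      calc |d| * ‖dir e ξ ζ‖ ≤ 4 * (c * l₀ ^ 2 / 24) * 3 :=
            mul_le_mul hd4 hu (norm_nonneg _) (by positivity)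
        _ = _ := by ring
    have h3 : l₀ ^ 2 ≤ h * l := by
      rw [sq]
      exact mul_le_mul hcase.le (hcase.le.trans hhl) hl₀0.le hh
    have h4 : c * l₀ ^ 2 / 2 ≤ c / 2 * (h * l) := by
      have := mul_le_mul_of_nonneg_left h3 (show 0 ≤ c / 2 by positivity)
      linarith
    have h5 : c * h * l = c * (h * l) := by ring
    linarith

end Pool.Agent.N466.Bal
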