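import Pool.Agent.N466.Bal.Basic

/-!
# Difference quotients
-/

set_option autoImplicit false

namespace Pool.Agent.N466.Bal

open MeasureTheory Set
open scoped ContDiff

/-- The difference quotient of a function with derivative `D`. -/
noncomputable def W (D : ℝ → ℝ) (a b : ℝ) : ℝ := ∫ x in (0 : ℝ)..1, D (a + x * (b - a))

theorem continuous_W {D : ℝ → ℝ} (hD : Continuous D) : Continuous (Function.uncurry (W D)) := by
  have : Continuous fun p : ℝ × ℝ => ∫ x in (0 : ℝ)..1, D (p.1 + x * (p.2 - p.1)) := by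
    apply intervalIntegral.continuous_parametric_intervalIntegral_of_continuous'
    show Continuous fun q : (ℝ × ℝ) × ℝ => D (q.1.1 + q.2 * (q.1.2 - q.1.1))
    fun_prop
  exact this

theorem W_symm (D : ℝ → ℝ) (a b : ℝ) : W D a b = W D b a := by
  unfold W
  have := intervalIntegral.integral_comp_sub_left (fun x => D (b + x * (a - b))) (1 : ℝ)
    (a := 0) (b := 1)
  simp only [sub_self, sub_zero] at this
  rw [← this]
  congr 1
  ext x
  congr 1
  ring

theorem W_mul {D r : ℝ → ℝ} (hD : Continuous D) (hr : ∀ x, HasDerivAt r (D x) x) (a b : ℝ) :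
    (b - a) * W D a b = r b - r a := by
  have h := intervalIntegral.integral_eq_sub_of_hasDerivAt (a := 0) (b := 1)
    (f := fun x => r (a + x * (b - a))) (f' := fun x => D (a + x * (b - a)) * (b - a)) ?_ ?_
  · simp only [one_mul, zero_mul, add_zero] at h
    rw [intervalIntegral.integral_mul_const] at h
    unfold W
    rw [mul_comm, h]
    congr 2
    ring
  · intro x _
    have h1 : HasDerivAt (fun x : ℝ => a + x * (b - a)) (b - a) x := by
      simpa using ((hasDerivAt_id x).mul_const (b - a)).const_add a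
    exact (hr (a + x * (b - a))).comp x h1
  · apply Continuous.intervalIntegrable
    fun_prop

theorem W_lip {D : ℝ → ℝ} (hD : Continuous D) {N L : ℝ}
    (hL : ∀ x ∈ Icc (-N) N, ∀ y ∈ Icc (-N) N, |D x - D y| ≤ L * |x - y|) (hL0 : 0 ≤ L)
    {a b a' b' : ℝ} (ha : a ∈ Icc (-N) N) (hb : b ∈ Icc (-N) N) (ha' : a' ∈ Icc (-N) N)
    (hb' : b' ∈ Icc (-N) N) : |W D a b - W D a' b'| ≤ L * (|a - a'| + |b - b'|) := by
  have h : W D a b - W D a' b' =
      ∫ x in (0 : ℝ)..1, (D (a + x * (b - a)) - D (a' + x * (b' - a'))) := by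
    unfold W
    rw [intervalIntegral.integral_sub]
    · apply Continuous.intervalIntegrable
      fun_prop
    · apply Continuous.intervalIntegrable
      fun_prop
  rw [h]
  have mem : ∀ (u v x : ℝ), u ∈ Icc (-N) N → v ∈ Icc (-N) N → 0 ≤ x → x ≤ 1 →
      u + x * (v - u) ∈ Icc (-N) N := by
    intro u v x hu hv hx0 hx1
    constructor
    · nlinarith [hu.1, hv.1]
    · nlinarith [hu.2, hv.2]
  have := intervalIntegral.norm_integral_le_of_norm_le_const (a := (0 : ℝ)) (b := 1)
    (f := fun x => D (a + x * (b - a)) - D (a' + x * (b' - a'))) (C := L * (|a - a'| + |b - b'|)) ?_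
  · simpa using this
  · intro x hx
    rw [uIoc_of_le zero_le_one] at hx
    rw [Real.norm_eq_abs]
    refine (hL _ (mem a b x ha hb hx.1.le hx.2) _ (mem a' b' x ha' hb' hx.1.le hx.2)).trans ?_
    apply mul_le_mul_of_nonneg_left _ hL0
    have e : a + x * (b - a) - (a' + x * (b' - a')) = (1 - x) * (a - a') + x * (b - b') := by ring
    rw [e]
    calc |(1 - x) * (a - a') + x * (b - b')| ≤ |(1 - x) * (a - a')| + |x * (b - b')| :=
          abs_add_le _ _
      _ = (1 - x) * |a - a'| + x * |b - b'| := by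
          rw [abs_mul, abs_mul, abs_of_nonneg (by linarith [hx.2] : 0 ≤ 1 - x), abs_of_pos hx.1]
      _ ≤ 1 * |a - a'| + 1 * |b - b'| := by
          apply add_le_add
          · exact mul_le_mul_of_nonneg_right (by linarith [hx.1]) (abs_nonneg _)
          · exact mul_le_mul_of_nonneg_right hx.2 (abs_nonneg _)
      _ = _ := by ring

/-- The second difference is close to `h * l * W`. -/
theorem second_diff {D r f : ℝ → ℝ} (hD : Continuous D) (hr : ∀ x, HasDerivAt r (D x) x)
    (hf : ∀ x, HasDerivAt f (r x) x) {N L : ℝ}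
    (hL : ∀ x ∈ Icc (-N) N, ∀ y ∈ Icc (-N) N, |D x - D y| ≤ L * |x - y|) (hL0 : 0 ≤ L)
    {p h l : ℝ} (hh : 0 ≤ h) (hl : 0 ≤ l) (hp : -N ≤ p) (hq : p + h + l ≤ N) :
    |(f (p + h + l) - f (p + h) - f (p + l) + f p) - h * l * W D p (p + l)| ≤
      2 * L * h * (h * l) := by
  obtain ⟨φ, hφ⟩ : ∃ φ : ℝ → ℝ, φ = fun x => f (p + l + x) - f (p + x) - l * W D p (p + l) * x :=
    ⟨_, rfl⟩
  have hφ' : ∀ x, HasDerivAt φ (r (p + l + x) - r (p + x) - l * W D p (p + l)) x := by
    intro x
    rw [hφ]
    have h1 := ((hf (p + l + x)).comp_const_add (p + l) x).sub ((hf (p + x)).comp_const_add p x)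
    have h2 : HasDerivAt (fun x : ℝ => l * W D p (p + l) * x) (l * W D p (p + l)) x := by
      simpa using (hasDerivAt_id x).const_mul (l * W D p (p + l))
    exact h1.sub h2
  have := mvt_abs hφ' hh (m := 2 * L * h * l) ?_
  · rw [hφ] at this
    simp only [add_zero, mul_zero, sub_zero] at this
    have e : p + l + h = p + h + l := by ring
    rw [e] at this
    have e2 : f (p + h + l) - f (p + h) - l * W D p (p + l) * h - (f (p + l) - f p) =
      (f (p + h + l) - f (p + h) - f (p + l) + f p) - h * l * W D p (p + l) := by ring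
    rw [e2] at this
    linarith
  · intro x hx
    have h1 := W_mul hD hr (p + x) (p + l + x)
    have e : p + l + x - (p + x) = l := by ring
    rw [e] at h1
    rw [← h1, ← mul_sub, abs_mul, abs_of_nonneg hl]
    have h2 := W_lip hD hL hL0 (a := p + x) (b := p + l + x) (a' := p) (b' := p + l)
      ⟨by linarith [hx.1], by linarith [hx.2]⟩ ⟨by linarith [hx.1], by linarith [hx.2]⟩
      ⟨by linarith, by linarith⟩ ⟨by linarith, by linarith⟩
    have e1 : p + x - p = x := by ring
    have e2 : p + l + x - (p + l) = x := by ring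
    rw [e1, e2, abs_of_nonneg hx.1] at h2
    have h3 : L * (x + x) ≤ 2 * L * h := by nlinarith [hx.2]
    have := mul_le_mul_of_nonneg_left (h2.trans h3) hl
    linarith

end Pool.Agent.N466.Bal
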