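import Pool.Agent.N466.Bal.Local
import Pool.Agent.N466.Bal.Cutoff
import Pool.Agent.N466.Bal.Energy

/-!
# The basic step of the construction
-/

set_option autoImplicit false

namespace Pool.Agent.N466.Bal

open MeasureTheory Set
open scoped ContDiff

theorem Curve.exists_pos {F ρ : ℝ → V} (hC : Curve F ρ) {n : ℝ} (hn : 0 ≤ n) :
    ∃ c : ℝ, 0 < c ∧ ∀ s, |s| ≤ n → ∀ i, c ≤ ρ s i := by
  have h : ∀ i, ∃ c : ℝ, 0 < c ∧ ∀ s, |s| ≤ n → c ≤ ρ s i := by
    intro i
    have hne : (Icc (-n) n).Nonempty := ⟨0, by constructor <;> linarith⟩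
    obtain ⟨x, hx, hmin⟩ := isCompact_Icc.exists_isMinOn hne
      (hC.smooth i).continuous.continuousOn
    refine ⟨ρ x i, hC.pos x i, ?_⟩
    intro s hs
    exact isMinOn_iff.1 hmin s (abs_le.1 hs)
  choose c hc0 hc using h
  refine ⟨min (min (c 0) (c 1)) (min (c 2) (c 3)), ?_, ?_⟩
  · exact lt_min (lt_min (hc0 0) (hc0 1)) (lt_min (hc0 2) (hc0 3))
  · intro s hs i
    refine le_trans ?_ (hc i s hs)
    fin_cases i
    · exact (min_le_left _ _).trans (min_le_left _ _)
    · exact (min_le_left _ _).trans (min_le_right _ _)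
    · exact (min_le_right _ _).trans (min_le_left _ _)
    · exact (min_le_right _ _).trans (min_le_right _ _)

theorem Curve.step {F ρ : ℝ → V} (hC : Curve F ρ) (e : Equiv.Perm (Fin 4)) {n : ℝ} (hn : 0 < n)
    {δ η : ℝ} (hδ : 0 < δ) (hη : 0 < η) : ∃ F' ρ' : ℝ → V, Curve F' ρ' ∧
      (∀ s, ‖F' s - F s‖ ≤ δ) ∧
      (∫ s in (-n)..n, ∑ i, ρ s i ^ 2) +
        1 / 4 * (∫ s in (-n)..n, ρ s (e 0) ^ 2 * ρ s (e 3) ^ 2) - η ≤
        ∫ s in (-n)..n, ∑ i, ρ' s i ^ 2 := by
  obtain ⟨n0, hn0, hb⟩ := hC.base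
  obtain ⟨n1, hn1⟩ : ∃ n1, n1 = max n n0 + 1 := ⟨_, rfl⟩
  have hn1n : n < n1 := by rw [hn1]; linarith [le_max_left n n0]
  have hn1n0 : n0 < n1 := by rw [hn1]; linarith [le_max_right n n0]
  have hn10 : 0 < n1 := hn.trans hn1n
  obtain ⟨c, hc0, hc⟩ := hC.exists_pos hn10.le
  have hc1 : c ≤ 1 := (hc 0 (by rw [abs_zero]; exact hn10.le) 0).trans (hC.le_one 0 0)
  obtain ⟨N0, hN0, hfar⟩ := far_curve hn10 (show 0 < c / 8 by positivity)
  obtain ⟨cW, hcW, hlow⟩ := hC.low N0
  obtain ⟨L, hL0, hL⟩ := hC.exists_lip N0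
  have hWlip : ∀ i, ∀ a ∈ Icc (-N0) N0, ∀ b ∈ Icc (-N0) N0, ∀ b' ∈ Icc (-N0) N0,
      |W (Dr ρ i) a b - W (Dr ρ i) a b'| ≤ L * |b - b'| := by
    intro i a ha b hb b' hb'
    have := W_lip (hC.continuous_Dr i) (hL i) hL0 ha hb ha hb'
    rwa [sub_self, abs_zero, zero_add] at this
  obtain ⟨ξ, ζ, κ, hξ0, hξ, hζ0, hζ, hκ, hvol⟩ := exists_direction hN0 hcW hL0
    (continuous_W (hC.continuous_Dr (e 0))) (continuous_W (hC.continuous_Dr (e 1)))
    (continuous_W (hC.continuous_Dr (e 2))) (hlow e) (hWlip _) (hWlip _) (hWlip _)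
    (U := c / 4) (η := η / 8) (by positivity) (by positivity)
  obtain ⟨χ, hχs, hχ01, hχZ, hχn, hχI⟩ := exists_cutoff
    (isCompact_bad (continuous_W (hC.continuous_Dr (e 0))) (continuous_W (hC.continuous_Dr (e 1)))
      (continuous_W (hC.continuous_Dr (e 2)))).isClosed hn (show 0 < η / 8 by positivity) hvol
  obtain ⟨ε, hε, c2, hc2, hloc⟩ := hC.local_nd e (N := N0) hκ hξ0 (by linarith : ξ ≤ 1) hζ0
    (by linarith : ζ ≤ 1)
  obtain ⟨g, hg⟩ : ∃ g : ℝ → ℝ, g = fun s => 1 / 2 * χ s * (ρ s (e 0) * ρ s (e 3)) := ⟨_, rfl⟩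
  have hgs : ContDiff ℝ ∞ g := by
    rw [hg]
    exact (contDiff_const.mul hχs).mul ((hC.smooth _).mul (hC.smooth _))
  have hg0 : ∀ s, 0 ≤ g s := by
    intro s
    rw [hg]
    have h1 := (hχ01 s).1
    have h2 := (hC.pos s (e 0)).le
    have h3 := (hC.pos s (e 3)).le
    positivity
  have hg1 : ∀ s, g s ≤ 1 / 2 * (ρ s (e 0) * ρ s (e 3)) := by
    intro s
    rw [hg]
    have h2 := (hC.pos s (e 0)).le
    have h3 := (hC.pos s (e 3)).le
    apply mul_le_mul_of_nonneg_right _ (by positivity)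
    linarith [(hχ01 s).2]
  have hρρ : ∀ s, ρ s (e 0) * ρ s (e 3) ≤ 1 := by
    intro s
    have h2 := hC.le_one s (e 0)
    have h3 := hC.le_one s (e 3)
    have h4 := hC.pos s (e 0)
    have h5 := hC.pos s (e 3)
    nlinarith
  have hg2 : ∀ s, g s ≤ 1 / 2 := fun s => by linarith [hg1 s, hρρ s]
  have hgz : ∀ s, n ≤ |s| → g s = 0 := by
    intro s hs
    rw [hg]
    simp [hχn s hs]
  have hgz' : ∀ s, n < |s| → deriv g s = 0 := by
    intro s hs
    have hop : IsOpen {s : ℝ | n < |s|} := isOpen_lt continuous_const continuous_abs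
    have : g =ᶠ[nhds s] fun _ => 0 := by
      filter_upwards [hop.mem_nhds hs] with x hx
      exact hgz x (le_of_lt hx)
    rw [this.deriv_eq]
    simp
  obtain ⟨G, hG⟩ := (isCompact_Icc (a := -n1) (b := n1)).exists_bound_of_continuousOn
    ((contDiff_infty_iff_deriv (𝕜 := ℝ)).1 hgs).2.continuous.continuousOn
  obtain ⟨u, hu⟩ : ∃ u, u = dir e ξ ζ := ⟨_, rfl⟩
  have hu0 : u (e 0) = 1 := by rw [hu, dir_0]
  have hu1 : u (e 1) = ξ := by rw [hu, dir_1]
  have hu2 : u (e 2) = ζ := by rw [hu, dir_2]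
  have hu3 : u (e 3) = -1 - ξ - ζ := by rw [hu, dir_3]
  have husum : ∑ i, u i = 0 := by
    rw [sum_perm e, hu0, hu1, hu2, hu3]; ring
  have husq : 2 ≤ ∑ i, u i ^ 2 := by
    rw [sum_perm e, hu0, hu1, hu2, hu3]
    nlinarith [sq_nonneg ξ, sq_nonneg ζ, mul_pos hξ0 hζ0]
  obtain ⟨C, hC0, hCE⟩ := energy hC.smooth husq hgs hn.le
  -- the frequency
  obtain ⟨w, hw⟩ : ∃ w, w = 1 / ε + 3 / (2 * δ) + 16 * |G| / c + 2 * C / η := ⟨_, rfl⟩
  have hw0 : 0 < w := by rw [hw]; positivity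
  have hwε : 1 / (2 * w) ≤ ε := by
    have h1 : 1 / ε ≤ w := by
      rw [hw]
      have : 0 ≤ 3 / (2 * δ) + 16 * |G| / c + 2 * C / η := by positivity
      linarith
    rw [div_le_iff₀ (by positivity)]
    rw [div_le_iff₀ hε] at h1
    nlinarith
  have hwδ : 3 / (2 * w) ≤ δ := by
    have h1 : 3 / (2 * δ) ≤ w := by
      rw [hw]
      have : 0 ≤ 1 / ε + 16 * |G| / c + 2 * C / η := by positivity
      linarith
    rw [div_le_iff₀ (by positivity)]
    rw [div_le_iff₀ (by positivity)] at h1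
    linarith
  have hwG : |G| / w ≤ c / 16 := by
    have h1 : 16 * |G| / c ≤ w := by
      rw [hw]
      have : 0 ≤ 1 / ε + 3 / (2 * δ) + 2 * C / η := by positivity
      linarith
    rw [div_le_iff₀ hw0]
    rw [div_le_iff₀ hc0] at h1
    linarith
  have hwC : C / w ≤ η / 2 := by
    have h1 : 2 * C / η ≤ w := by
      rw [hw]
      have : 0 ≤ 1 / ε + 3 / (2 * δ) + 16 * |G| / c := by positivity
      linarith
    rw [div_le_iff₀ hw0]
    rw [div_le_iff₀ hη] at h1
    linarith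
  have hampz : ∀ s, n1 ≤ |s| → amp' g w s = 0 := by
    intro s hs
    unfold amp'
    rw [hgz s (by linarith), hgz' s (by linarith)]
    simp
  have hamp : ∀ s, |amp g w s| ≤ 1 / (2 * w) := by
    intro s
    refine (amp_le hw0 s).trans ?_
    rw [abs_of_nonneg (hg0 s), div_le_div_iff₀ hw0 (by positivity)]
    nlinarith [hg2 s]
  have hamp' : ∀ s, |s| ≤ n1 → |amp' g w s| ≤ 1 / 2 * (ρ s (e 0) * ρ s (e 3)) + c / 16 := by
    intro s hs
    refine (amp'_le hw0 s).trans ?_
    rw [abs_of_nonneg (hg0 s)]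
    apply add_le_add (hg1 s)
    refine le_trans ?_ hwG
    apply div_le_div_of_nonneg_right _ hw0.le
    exact (hG s (abs_le.1 hs)).trans (le_abs_self G)
  have hnew : ∀ s, |s| ≤ n1 → ∀ i, c / 8 ≤ ρ s i + amp' g w s * u i := by
    intro s hs i
    obtain ⟨a, ha⟩ : ∃ a, a = amp' g w s := ⟨_, rfl⟩
    have h1 := hamp' s hs
    rw [← ha] at h1 ⊢
    have q0 := hc s hs (e 0)
    have q1 := hc s hs (e 1)
    have q2 := hc s hs (e 2)
    have q3 := hc s hs (e 3)
    have r0 := hC.le_one s (e 0)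
    have r3 := hC.le_one s (e 3)
    have m0 : ρ s (e 0) * ρ s (e 3) ≤ ρ s (e 0) := by nlinarith
    have m3 : ρ s (e 0) * ρ s (e 3) ≤ ρ s (e 3) := by nlinarith
    have ha1 := (abs_le.1 h1).1
    have ha2 := (abs_le.1 h1).2
    obtain ⟨j, rfl⟩ := e.surjective i
    fin_cases j
    · show c / 8 ≤ ρ s (e 0) + a * u (e 0)
      rw [hu0]
      linarith
    · show c / 8 ≤ ρ s (e 1) + a * u (e 1)
      rw [hu1]
      have hax : -(a * ξ) ≤ 1 * (c / 4) := by
        calc -(a * ξ) ≤ |a * ξ| := neg_le_abs _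
          _ = |a| * ξ := by rw [abs_mul, abs_of_pos hξ0]
          _ ≤ 1 * (c / 4) := mul_le_mul (by linarith) hξ.le hξ0.le zero_le_one
      linarith
    · show c / 8 ≤ ρ s (e 2) + a * u (e 2)
      rw [hu2]
      have hax : -(a * ζ) ≤ 1 * (c / 4) := by
        calc -(a * ζ) ≤ |a * ζ| := neg_le_abs _
          _ = |a| * ζ := by rw [abs_mul, abs_of_pos hζ0]
          _ ≤ 1 * (c / 4) := mul_le_mul (by linarith) hζ.le hζ0.le zero_le_one
      linarith
    · show c / 8 ≤ ρ s (e 3) + a * u (e 3)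
      rw [hu3]
      have hax : a * (1 + ξ + ζ) ≤ |a| * (3 / 2) := by
        calc a * (1 + ξ + ζ) ≤ |a| * (1 + ξ + ζ) :=
              mul_le_mul_of_nonneg_right (le_abs_self a) (by linarith)
          _ ≤ |a| * (3 / 2) := mul_le_mul_of_nonneg_left (by linarith) (abs_nonneg a)
      linarith
  have hsum' : ∀ s, ∑ i, (ρ s i + amp' g w s * u i) = 1 := by
    intro s
    rw [Finset.sum_add_distrib, ← Finset.mul_sum, husum, hC.sum s]
    ring
  have hpos' : ∀ s i, 0 < ρ s i + amp' g w s * u i := by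
    intro s i
    by_cases hs : |s| ≤ n1
    · exact lt_of_lt_of_le (by positivity) (hnew s hs i)
    · rw [hampz s (le_of_not_ge hs), zero_mul, add_zero]
      exact hC.pos s i
  have hle1 : ∀ s i, ρ s i + amp' g w s * u i ≤ 1 := by
    intro s i
    rw [← hsum' s]
    exact Finset.single_le_sum (f := fun i => ρ s i + amp' g w s * u i)
      (fun j _ => (hpos' s j).le) (Finset.mem_univ i)
  have hder' : ∀ i s, HasDerivAt (fun t => F t i + amp g w t * u i) (ρ s i + amp' g w s * u i) s := by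
    intro i s
    exact (hC.der i s).add ((hasDerivAt_amp hgs hw0 s).mul_const (u i))
  have hbase' : ∀ s, n1 ≤ |s| → (fun i => ρ s i + amp' g w s * u i) = rho0 s := by
    intro s hs
    ext i
    rw [hampz s hs, zero_mul, add_zero, hb s (by linarith)]
  refine ⟨fun s => F s + amp g w s • u, fun s i => ρ s i + amp' g w s * u i, ⟨?_, ?_, ?_, ?_, ?_, ?_⟩,
    ?_, ?_⟩
  · exact hder'
  · intro i
    exact (hC.smooth i).add ((contDiff_amp' hgs w).mul contDiff_const)
  · exact hpos'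
  · exact hsum'
  · exact ⟨n1, hn10, hbase'⟩
  · intro N
    obtain ⟨c3, hc3, H3⟩ := hfar (fun s => F s + amp g w s • u)
      (fun s i => ρ s i + amp' g w s * u i) hder' hbase'
      (fun s hs i => ⟨hnew s hs i, hle1 s i⟩) N
    refine ⟨min c2 c3, lt_min hc2 hc3, ?_⟩
    intro p h l hh hl hp hq
    by_cases hcase : p < -N0 ∨ N0 < p + h + l
    · refine le_trans ?_ (H3 p h l hh hl hp hq hcase)
      apply mul_le_mul_of_nonneg_right _ hl
      exact mul_le_mul_of_nonneg_right (min_le_right _ _) hh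
    · push Not at hcase
      have := hloc (amp g w) (fun s hs => by
        unfold amp
        rw [hg]
        simp [hχZ s hs]) (fun s => (hamp s).trans hwε) p h l hh hl hcase.1 hcase.2
      rw [← hu] at this
      refine le_trans ?_ this
      apply mul_le_mul_of_nonneg_right _ hl
      exact mul_le_mul_of_nonneg_right (min_le_left _ _) hh
  · intro s
    rw [add_sub_cancel_left, norm_smul, Real.norm_eq_abs]
    have hun : ‖u‖ ≤ 3 := by
      rw [pi_norm_le_iff_of_nonneg (by norm_num)]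
      intro i
      obtain ⟨j, rfl⟩ := e.surjective i
      rw [Real.norm_eq_abs, abs_le]
      fin_cases j
      · show -3 ≤ u (e 0) ∧ u (e 0) ≤ 3
        rw [hu0]; constructor <;> norm_num
      · show -3 ≤ u (e 1) ∧ u (e 1) ≤ 3
        rw [hu1]; constructor <;> linarith
      · show -3 ≤ u (e 2) ∧ u (e 2) ≤ 3
        rw [hu2]; constructor <;> linarith
      · show -3 ≤ u (e 3) ∧ u (e 3) ≤ 3
        rw [hu3]; constructor <;> linarith
    calc |amp g w s| * ‖u‖ ≤ 1 / (2 * w) * 3 :=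
          mul_le_mul (hamp s) hun (norm_nonneg _) (by positivity)
      _ = 3 / (2 * w) := by ring
      _ ≤ δ := hwδ
  · have hE := hCE w hw0
    have hχc := hχs.continuous
    have hρc : ∀ i, Continuous fun s => ρ s i := fun i => (hC.smooth i).continuous
    have hg3 : 1 / 4 * (∫ s in (-n)..n, ρ s (e 0) ^ 2 * ρ s (e 3) ^ 2) -
        1 / 4 * (∫ s in (-n)..n, (1 - χ s ^ 2)) ≤ ∫ s in (-n)..n, g s ^ 2 := by
      rw [← intervalIntegral.integral_const_mul, ← intervalIntegral.integral_const_mul,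
        ← intervalIntegral.integral_sub]
      · apply intervalIntegral.integral_mono_on (by linarith)
        · have := hρc (e 0)
          have := hρc (e 3)
          exact Continuous.intervalIntegrable (by fun_prop) _ _
        · have := hgs.continuous
          exact Continuous.intervalIntegrable (by fun_prop) _ _
        · intro s _
          rw [hg]
          have h1 : 0 ≤ 1 - χ s ^ 2 := by nlinarith [(hχ01 s).1, (hχ01 s).2]
          have h2 : (ρ s (e 0) * ρ s (e 3)) ^ 2 ≤ 1 := by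
            have h3 := hρρ s
            have h4 := mul_pos (hC.pos s (e 0)) (hC.pos s (e 3))
            nlinarith
          have h5 : (1 - χ s ^ 2) * (ρ s (e 0) * ρ s (e 3)) ^ 2 ≤ (1 - χ s ^ 2) * 1 :=
            mul_le_mul_of_nonneg_left h2 h1
          nlinarith
      · have := hρc (e 0)
        have := hρc (e 3)
        exact Continuous.intervalIntegrable (by fun_prop) _ _
      · exact Continuous.intervalIntegrable (by fun_prop) _ _
    linarith

end Pool.Agent.N466.Bal
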