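import Pool.Agent.N466.Bal.Step

/-!
# Curves of almost maximal energy, and difference quotients
-/

set_option autoImplicit false

namespace Pool.Agent.N466.Bal

open MeasureTheory Set Filter
open scoped ContDiff Topology

theorem exists_perm {i j : Fin 4} (hij : i ≠ j) : ∃ e : Equiv.Perm (Fin 4), e 0 = i ∧ e 3 = j := by
  have key : ∀ i j : Fin 4, i ≠ j → (Equiv.swap 0 i) ((Equiv.swap 3 ((Equiv.swap 0 i) j)) 0) = i ∧
      (Equiv.swap 0 i) ((Equiv.swap 3 ((Equiv.swap 0 i) j)) 3) = j := by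
    decide
  refine ⟨(Equiv.swap 3 ((Equiv.swap 0 i) j)).trans (Equiv.swap 0 i), ?_, ?_⟩
  · exact (key i j hij).1
  · exact (key i j hij).2

theorem Curve.exists_full {F ρ : ℝ → V} (hC : Curve F ρ) {n : ℝ} (hn : 0 < n) {δ ε : ℝ}
    (hδ : 0 < δ) (hε : 0 < ε) : ∃ F' ρ' : ℝ → V, Curve F' ρ' ∧ (∀ s, ‖F' s - F s‖ ≤ δ) ∧
      2 * n - ε ≤ ∫ s in (-n)..n, ∑ i, ρ' s i ^ 2 := by
  obtain ⟨S, hS⟩ : ∃ S : Set ℝ, S = {x | ∃ (F' ρ' : ℝ → V) (δ' : ℝ), δ' < δ ∧ Curve F' ρ' ∧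
    (∀ s, ‖F' s - F s‖ ≤ δ') ∧ x = ∫ s in (-n)..n, ∑ i, ρ' s i ^ 2} := ⟨_, rfl⟩
  have hne : S.Nonempty := by
    rw [hS]
    exact ⟨_, F, ρ, 0, hδ, hC, fun s => by simp, rfl⟩
  have hsq : ∀ {F' ρ' : ℝ → V}, Curve F' ρ' → ∀ s, ∑ i, ρ' s i ^ 2 ≤ 1 := by
    intro F' ρ' hC' s
    rw [← hC'.sum s]
    apply Finset.sum_le_sum
    intro i _
    have h1 := hC'.pos s i
    have h2 := hC'.le_one s i
    nlinarith
  have hcont : ∀ {F' ρ' : ℝ → V}, Curve F' ρ' → ∀ i, Continuous fun s => ρ' s i :=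
    fun hC' i => (hC'.smooth i).continuous
  have hbd : BddAbove S := by
    refine ⟨2 * n, ?_⟩
    intro x hx
    rw [hS] at hx
    obtain ⟨F', ρ', δ', -, hC', -, rfl⟩ := hx
    have hc := hcont hC'
    calc ∫ s in (-n)..n, ∑ i, ρ' s i ^ 2 ≤ ∫ s in (-n)..n, (1 : ℝ) := by
          apply intervalIntegral.integral_mono_on (by linarith)
          · exact Continuous.intervalIntegrable (by fun_prop) _ _
          · exact Continuous.intervalIntegrable (by fun_prop) _ _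
          · intro s _; exact hsq hC' s
      _ = 2 * n := by simp; ring
  obtain ⟨θ, hθ⟩ : ∃ θ, θ = ε / (48 * n) := ⟨_, rfl⟩
  have hθ0 : 0 < θ := by rw [hθ]; positivity
  obtain ⟨m, hm⟩ : ∃ m, m = θ * ε / 48 := ⟨_, rfl⟩
  have hm0 : 0 < m := by rw [hm]; positivity
  obtain ⟨x, hx, hxm⟩ := exists_lt_of_lt_csSup hne (show sSup S - m < sSup S by linarith)
  rw [hS] at hx
  obtain ⟨F1, ρ1, δ1, hδ1, hC1, hF1, rfl⟩ := hx
  refine ⟨F1, ρ1, hC1, fun s => (hF1 s).trans hδ1.le, ?_⟩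
  have hc1 := hcont hC1
  have hP : ∀ i j, i ≠ j → ∫ s in (-n)..n, ρ1 s i ^ 2 * ρ1 s j ^ 2 ≤ 8 * m := by
    intro i j hij
    obtain ⟨e, he0, he3⟩ := exists_perm hij
    obtain ⟨F2, ρ2, hC2, hF2, hE⟩ := hC1.step e hn (δ := (δ - δ1) / 2) (η := m) (by linarith) hm0
    rw [he0, he3] at hE
    have hmem : (∫ s in (-n)..n, ∑ i, ρ2 s i ^ 2) ∈ S := by
      rw [hS]
      refine ⟨F2, ρ2, δ1 + (δ - δ1) / 2, by linarith, hC2, ?_, rfl⟩
      intro s
      calc ‖F2 s - F s‖ = ‖(F2 s - F1 s) + (F1 s - F s)‖ := by congr 1; abel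
        _ ≤ ‖F2 s - F1 s‖ + ‖F1 s - F s‖ := norm_add_le _ _
        _ ≤ (δ - δ1) / 2 + δ1 := add_le_add (hF2 s) (hF1 s)
        _ = _ := by ring
    have := le_csSup hbd hmem
    linarith
  -- the pointwise inequality
  have hpt : ∀ s, 1 - ∑ i, ρ1 s i ^ 2 ≤ 12 * θ + (1 / (2 * θ)) * (ρ1 s 0 ^ 2 * ρ1 s 1 ^ 2 +
      ρ1 s 0 ^ 2 * ρ1 s 2 ^ 2 + ρ1 s 0 ^ 2 * ρ1 s 3 ^ 2 + ρ1 s 1 ^ 2 * ρ1 s 2 ^ 2 +
      ρ1 s 1 ^ 2 * ρ1 s 3 ^ 2 + ρ1 s 2 ^ 2 * ρ1 s 3 ^ 2) := by
    intro s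
    have hs := hC1.sum s
    rw [Fin.sum_univ_four] at hs ⊢
    have amgm : ∀ a b : ℝ, 2 * (a * b) ≤ 2 * θ + (1 / (2 * θ)) * (a ^ 2 * b ^ 2) := by
      intro a b
      have h1 : 0 ≤ (a * b - 2 * θ) ^ 2 := sq_nonneg _
      have h2 : (1 / (2 * θ)) * (a ^ 2 * b ^ 2) = (a ^ 2 * b ^ 2) / (2 * θ) := by ring
      rw [h2]
      have h3 : 2 * (a * b) - 2 * θ ≤ (a ^ 2 * b ^ 2) / (2 * θ) := by
        rw [le_div_iff₀ (by positivity)]
        nlinarith
      linarith
    have a1 := amgm (ρ1 s 0) (ρ1 s 1)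
    have a2 := amgm (ρ1 s 0) (ρ1 s 2)
    have a3 := amgm (ρ1 s 0) (ρ1 s 3)
    have a4 := amgm (ρ1 s 1) (ρ1 s 2)
    have a5 := amgm (ρ1 s 1) (ρ1 s 3)
    have a6 := amgm (ρ1 s 2) (ρ1 s 3)
    have e : (ρ1 s 0 + ρ1 s 1 + ρ1 s 2 + ρ1 s 3) ^ 2 = 1 := by rw [hs]; norm_num
    nlinarith
  have hI := intervalIntegral.integral_mono_on (μ := volume) (a := -n) (b := n) (by linarith)
    (Continuous.intervalIntegrable (by fun_prop) _ _)
    (Continuous.intervalIntegrable (by fun_prop) _ _) (fun s _ => hpt s)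
  rw [intervalIntegral.integral_sub (Continuous.intervalIntegrable (by fun_prop) _ _)
      (Continuous.intervalIntegrable (by fun_prop) _ _),
    intervalIntegral.integral_add (Continuous.intervalIntegrable (by fun_prop) _ _)
      (Continuous.intervalIntegrable (by fun_prop) _ _),
    intervalIntegral.integral_const_mul (1 / (2 * θ)),
    intervalIntegral.integral_add (Continuous.intervalIntegrable (by fun_prop) _ _)
      (Continuous.intervalIntegrable (by fun_prop) _ _),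
    intervalIntegral.integral_add (Continuous.intervalIntegrable (by fun_prop) _ _)
      (Continuous.intervalIntegrable (by fun_prop) _ _),
    intervalIntegral.integral_add (Continuous.intervalIntegrable (by fun_prop) _ _)
      (Continuous.intervalIntegrable (by fun_prop) _ _),
    intervalIntegral.integral_add (Continuous.intervalIntegrable (by fun_prop) _ _)
      (Continuous.intervalIntegrable (by fun_prop) _ _),
    intervalIntegral.integral_add (Continuous.intervalIntegrable (by fun_prop) _ _)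
      (Continuous.intervalIntegrable (by fun_prop) _ _)] at hI
  simp only [intervalIntegral.integral_const, smul_eq_mul, mul_one, sub_neg_eq_add] at hI
  have b1 := hP 0 1 (by decide)
  have b2 := hP 0 2 (by decide)
  have b3 := hP 0 3 (by decide)
  have b4 := hP 1 2 (by decide)
  have b5 := hP 1 3 (by decide)
  have b6 := hP 2 3 (by decide)
  have hk : (1 / (2 * θ)) * ((∫ s in (-n)..n, ρ1 s 0 ^ 2 * ρ1 s 1 ^ 2) +
      (∫ s in (-n)..n, ρ1 s 0 ^ 2 * ρ1 s 2 ^ 2) + (∫ s in (-n)..n, ρ1 s 0 ^ 2 * ρ1 s 3 ^ 2) +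
      (∫ s in (-n)..n, ρ1 s 1 ^ 2 * ρ1 s 2 ^ 2) + (∫ s in (-n)..n, ρ1 s 1 ^ 2 * ρ1 s 3 ^ 2) +
      (∫ s in (-n)..n, ρ1 s 2 ^ 2 * ρ1 s 3 ^ 2)) ≤ (1 / (2 * θ)) * (48 * m) := by
    apply mul_le_mul_of_nonneg_left _ (by positivity)
    linarith
  have hfin : (1 / (2 * θ)) * (48 * m) = ε / 2 := by
    rw [hm]; field_simp
  have hfin2 : (n + n) * (12 * θ) = ε / 2 := by
    rw [hθ]; field_simp; norm_num
  linarith

/-- The difference quotients converge in the mean. -/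
theorem dq_tendsto {f : ℝ → ℝ} (hf : ∀ s t, s ≤ t → 0 ≤ f t - f s ∧ f t - f s ≤ t - s) (n : ℝ) :
    Tendsto (fun h : ℝ => ∫ s in (-n)..n, ((f (s + h) - f s) / h) ^ 2) (𝓝[>] 0)
      (𝓝 (∫ s in (-n)..n, (deriv f s) ^ 2)) := by
  have hmono : Monotone f := fun s t h => by linarith [(hf s t h).1]
  have hfc : Continuous f := by
    have : LipschitzWith 1 f := by
      apply LipschitzWith.of_dist_le_mul
      intro s t
      rw [Real.dist_eq, Real.dist_eq, NNReal.coe_one, one_mul]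
      rcases le_total s t with h | h
      · have := hf s t h
        rw [abs_sub_comm, abs_sub_comm s t, abs_of_nonneg this.1, abs_of_nonneg (by linarith)]
        exact this.2
      · have := hf t s h
        rw [abs_of_nonneg this.1, abs_of_nonneg (by linarith)]
        exact this.2
    exact this.continuous
  apply intervalIntegral.tendsto_integral_filter_of_dominated_convergence (fun _ => (1 : ℝ))
  · filter_upwards with h
    exact Continuous.aestronglyMeasurable (by fun_prop)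
  · filter_upwards [self_mem_nhdsWithin] with h hh
    refine Eventually.of_forall fun s _ => ?_
    have hh0 : 0 < h := hh
    have h1 := hf s (s + h) (by linarith)
    have h2 : 0 ≤ (f (s + h) - f s) / h := div_nonneg h1.1 hh0.le
    have h3 : (f (s + h) - f s) / h ≤ 1 := by
      rw [div_le_one hh0]; linarith [h1.2]
    rw [Real.norm_eq_abs, abs_of_nonneg (sq_nonneg _)]
    nlinarith
  · exact intervalIntegrable_const
  · filter_upwards [hmono.ae_differentiableAt] with s hs _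
    have h1 := hasDerivAt_iff_tendsto_slope_zero.1 hs.hasDerivAt
    have h2 := h1.mono_left (nhdsWithin_mono 0 (fun x (hx : x ∈ Ioi (0 : ℝ)) => ne_of_gt hx))
    have h3 := h2.pow 2
    refine h3.congr fun t => ?_
    rw [smul_eq_mul, div_eq_inv_mul]

end Pool.Agent.N466.Bal
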